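import Mathlib

set_option autoImplicit false

/-!
Permutations supported in a set, extension of partial bijections, and generation of `Sym(A ∪ B)`
by `Sym(A)` and `Sym(B)` when `A ∩ B` is large.
-/

open Cardinal Set

universe u

namespace Pool.Agent.R629.Filt

variable {Ω : Type u}

/-- The permutations that fix every point outside `A`. -/
def Sy (A : Set Ω) : Subgroup (Equiv.Perm Ω) where
  carrier := {g | ∀ x, x ∉ A → g x = x}
  mul_mem' := by
    intro g h hg hh x hx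
    rw [Equiv.Perm.mul_apply, hh x hx, hg x hx]
  one_mem' := fun _ _ => rfl
  inv_mem' := by
    intro g hg x hx
    rw [Equiv.Perm.inv_eq_iff_eq, hg x hx]

lemma mem_Sy {A : Set Ω} {g : Equiv.Perm Ω} : g ∈ Sy A ↔ ∀ x, x ∉ A → g x = x := Iff.rfl

lemma Sy_mono {A B : Set Ω} (h : A ⊆ B) : Sy A ≤ Sy B := fun _ hg x hx => hg x fun h' => hx (h h')

lemma Sy_univ : Sy (Set.univ : Set Ω) = ⊤ := by
  rw [eq_top_iff]; intro g _ x hx; exact absurd (Set.mem_univ x) hx

lemma Sy_empty : Sy (∅ : Set Ω) = ⊥ := by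
  rw [eq_bot_iff]; intro g hg
  rw [Subgroup.mem_bot]
  ext x; exact hg x (by simp)

lemma Sy_mem_of_mem {A : Set Ω} {g : Equiv.Perm Ω} (hg : g ∈ Sy A) {x : Ω} (hx : x ∈ A) :
    g x ∈ A := by
  by_contra h
  have h1 := hg _ h
  have h2 := g.injective h1
  rw [h2] at h
  exact h hx

lemma Sy_image_subset {A : Set Ω} {g : Equiv.Perm Ω} (hg : g ∈ Sy A) (C : Set Ω) :
    g '' C ⊆ C ∪ A := by
  rintro _ ⟨x, hx, rfl⟩
  by_cases h : x ∈ A
  · exact Or.inr (Sy_mem_of_mem hg h)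
  · rw [hg x h]; exact Or.inl hx

lemma perm_inv_self (g : Equiv.Perm Ω) (x : Ω) : g⁻¹ (g x) = x := by
  rw [Equiv.Perm.inv_eq_iff_eq]

lemma perm_self_inv (g : Equiv.Perm Ω) (x : Ω) : g (g⁻¹ x) = x := by
  have := perm_inv_self g⁻¹ x
  rwa [inv_inv] at this

/-- If `Sym(A) ≤ H` and `g ∈ H` then `Sym(g A) ≤ H`. -/
lemma Sy_image_le {H : Subgroup (Equiv.Perm Ω)} {g : Equiv.Perm Ω} (hg : g ∈ H) {A : Set Ω}
    (hA : Sy A ≤ H) : Sy (g '' A) ≤ H := by
  intro s hs
  have h1 : g⁻¹ * s * g ∈ Sy A := by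
    intro x hx
    have h2 : g x ∉ g '' A := by
      rintro ⟨y, hy, hyx⟩
      exact hx (g.injective hyx ▸ hy)
    rw [Equiv.Perm.mul_apply, Equiv.Perm.mul_apply, hs _ h2, perm_inv_self]
  have h3 : s = g * (g⁻¹ * s * g) * g⁻¹ := by group
  rw [h3]
  exact H.mul_mem (H.mul_mem hg (hA h1)) (H.inv_mem hg)

/-! ### Cardinal lemmas -/

lemma mk_mono {A B : Set Ω} (h : A ⊆ B) : #A ≤ #B := mk_le_mk_of_subset h

/-- If `A ⊆ B ∪ C` and `#C ≤ #B` with `B` infinite then `#A ≤ #B`. -/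
lemma mk_le_of_subset_union {A B C : Set Ω} (h : A ⊆ B ∪ C) (hB : ℵ₀ ≤ #B) (hC : #C ≤ #B) :
    #A ≤ #B := by
  calc #A ≤ #(B ∪ C : Set Ω) := mk_mono h
    _ ≤ #B + #C := mk_union_le B C
    _ ≤ #B + #B := by gcongr
    _ = #B := add_eq_self hB

lemma mk_lt_of_union {A B C : Set Ω} {c : Cardinal} (hc : ℵ₀ ≤ c) (h : A ⊆ B ∪ C) (hB : #B < c)
    (hC : #C < c) : #A < c := by
  calc #A ≤ #(B ∪ C : Set Ω) := mk_mono h
    _ ≤ #B + #C := mk_union_le B C
    _ < c := add_lt_of_lt hc hB hC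

lemma mk_le_of_union {A B C : Set Ω} {c : Cardinal} (hc : ℵ₀ ≤ c) (h : A ⊆ B ∪ C) (hB : #B ≤ c)
    (hC : #C ≤ c) : #A ≤ c := by
  calc #A ≤ #(B ∪ C : Set Ω) := mk_mono h
    _ ≤ #B + #C := mk_union_le B C
    _ ≤ c + c := by gcongr
    _ = c := add_eq_self hc

/-- Removing a small set from a set does not change its cardinality. -/
lemma mk_diff_eq {A B : Set Ω} (hA : ℵ₀ ≤ #A) (hB : #(A ∩ B : Set Ω) < #A) :
    #(A \ B : Set Ω) = #A := by
  apply le_antisymm (mk_mono sdiff_subset)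
  by_contra h
  push Not at h
  have h1 : A ⊆ (A ∩ B) ∪ (A \ B) := by rw [inter_union_sdiff]
  exact absurd (mk_lt_of_union hA h1 hB h) (lt_irrefl _)

lemma mk_diff_eq' {A B : Set Ω} (hA : ℵ₀ ≤ #A) (hB : #B < #A) : #(A \ B : Set Ω) = #A :=
  mk_diff_eq hA ((mk_mono inter_subset_right).trans_lt hB)

/-- If `P ⊆ A` and `#P ≤ #(A \ P)` with `A` infinite then `#(A \ P) = #A`. -/
lemma mk_diff_eq_of_le {A P : Set Ω} (hA : ℵ₀ ≤ #A) (h : #(A ∩ P : Set Ω) ≤ #(A \ P : Set Ω)) :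
    #(A \ P : Set Ω) = #A := by
  apply le_antisymm (mk_mono sdiff_subset)
  have h1 : A ⊆ (A \ P) ∪ (A ∩ P) := by rw [sdiff_union_inter]
  have h2 : ℵ₀ ≤ #(A \ P : Set Ω) := by
    by_contra h3
    push Not at h3
    exact absurd (mk_lt_of_union le_rfl h1 h3 (h.trans_lt h3)) (not_lt.mpr hA)
  exact mk_le_of_subset_union h1 h2 h

/-- An infinite set splits in two sets of the same cardinality. -/
lemma exists_split {A : Set Ω} (hA : ℵ₀ ≤ #A) :
    ∃ A₁ A₂ : Set Ω, A₁ ∪ A₂ = A ∧ Disjoint A₁ A₂ ∧ #A₁ = #A ∧ #A₂ = #A := by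
  have h : #A = #(A ⊕ A) := by rw [mk_sum, lift_id, add_eq_self hA]
  obtain ⟨e⟩ := Cardinal.eq.mp h
  refine ⟨Subtype.val '' (range fun a : A => e.symm (Sum.inl a)),
    Subtype.val '' (range fun a : A => e.symm (Sum.inr a)), ?_, ?_, ?_, ?_⟩
  · rw [← image_union]
    have : (range fun a : A => e.symm (Sum.inl a)) ∪ (range fun a : A => e.symm (Sum.inr a)) =
        Set.univ := by
      ext x
      simp only [mem_union, mem_range, Set.mem_univ, iff_true]
      rcases h : e x with a | a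
      · exact Or.inl ⟨a, by rw [← h, e.symm_apply_apply]⟩
      · exact Or.inr ⟨a, by rw [← h, e.symm_apply_apply]⟩
    rw [this, image_univ, Subtype.range_coe]
  · rw [disjoint_image_iff Subtype.val_injective]
    rw [Set.disjoint_left]
    rintro x ⟨a, ha⟩ ⟨b, hb⟩
    have : e.symm (Sum.inl a) = e.symm (Sum.inr b) := ha.trans hb.symm
    have h2 := e.symm.injective this
    simp at h2
  · rw [mk_image_eq Subtype.val_injective]
    exact mk_range_eq _ fun a b h => by simpa using h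
  · rw [mk_image_eq Subtype.val_injective]
    exact mk_range_eq _ fun a b h => by simpa using h

/-- A subset `D'` of `C` with `#D' = d` and `#(C \ D') = #C`, when `d ≤ #C` and `C` is infinite. -/
lemma exists_subset_compl {C : Set Ω} (hC : ℵ₀ ≤ #C) {d : Cardinal.{u}} (hd : d ≤ #C) :
    ∃ D' ⊆ C, #D' = d ∧ #(C \ D' : Set Ω) = #C := by
  obtain ⟨C₁, C₂, hCC, hdis, h1, h2⟩ := exists_split hC
  rw [← h1] at hd
  obtain ⟨D', hD', hd'⟩ := le_mk_iff_exists_subset.mp hd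
  refine ⟨D', hD'.trans (hCC ▸ subset_union_left), hd', ?_⟩
  apply le_antisymm (mk_mono sdiff_subset)
  rw [← h2]
  apply mk_mono
  intro x hx
  refine ⟨hCC ▸ Or.inr hx, fun hx' => ?_⟩
  exact (Set.disjoint_left.mp hdis (hD' hx')) hx

/-- Extend a bijection between subsets `P`, `Q` of `A` with equipotent complements in `A` to a
permutation supported in `A`. -/
lemma exists_perm_extend {A P Q : Set Ω} (hP : P ⊆ A) (hQ : Q ⊆ A) {f : Ω → Ω}
    (hf : BijOn f P Q) (h : #(A \ P : Set Ω) = #(A \ Q : Set Ω)) :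
    ∃ g ∈ Sy A, ∀ x ∈ P, g x = f x := by
  classical
  obtain ⟨e⟩ := Cardinal.eq.mp h
  let F : Ω → Ω := fun x => if x ∈ P then f x else if hx : x ∈ A \ P then e ⟨x, hx⟩ else x
  have F1 : ∀ x, x ∈ P → F x = f x := fun x hx => if_pos hx
  have F2 : ∀ x (hx : x ∈ A \ P), F x = e ⟨x, hx⟩ := fun x hx => by
    simp only [F]; rw [if_neg hx.2, dif_pos hx]
  have F3 : ∀ x, x ∉ A → F x = x := fun x hx => by
    simp only [F]; rw [if_neg (fun h => hx (hP h)), dif_neg (fun h => hx h.1)]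
  have m1 : ∀ x, x ∈ P → F x ∈ Q := fun x hx => by rw [F1 x hx]; exact hf.mapsTo hx
  have m2 : ∀ x, x ∈ A \ P → F x ∈ A \ Q := fun x hx => by rw [F2 x hx]; exact (e ⟨x, hx⟩).2
  have m3 : ∀ x, x ∉ A → F x ∉ A := fun x hx => by rw [F3 x hx]; exact hx
  have hbij : Function.Bijective F := by
    constructor
    · intro x y hxy
      by_cases hx : x ∈ P
      · by_cases hy : y ∈ P
        · rw [F1 x hx, F1 y hy] at hxy
          exact hf.injOn hx hy hxy
        · by_cases hyA : y ∈ A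
          · exact absurd (hxy ▸ m1 x hx) (m2 y ⟨hyA, hy⟩).2
          · exact absurd (hQ (hxy ▸ m1 x hx)) (m3 y hyA)
      · by_cases hxA : x ∈ A
        · by_cases hy : y ∈ P
          · exact absurd (hxy ▸ m1 y hy) (m2 x ⟨hxA, hx⟩).2
          · by_cases hyA : y ∈ A
            · rw [F2 x ⟨hxA, hx⟩, F2 y ⟨hyA, hy⟩] at hxy
              have := e.injective (Subtype.ext hxy)
              exact congrArg Subtype.val this
            · exact absurd (hxy ▸ (m2 x ⟨hxA, hx⟩).1) (m3 y hyA)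
        · by_cases hyA : y ∈ A
          · have : F y ∈ A := by
              by_cases hy : y ∈ P
              · exact hQ (m1 y hy)
              · exact (m2 y ⟨hyA, hy⟩).1
            exact absurd (hxy ▸ this) (m3 x hxA)
          · rwa [F3 x hxA, F3 y hyA] at hxy
    · intro y
      by_cases hyA : y ∈ A
      · by_cases hy : y ∈ Q
        · obtain ⟨x, hx, hxy⟩ := hf.surjOn hy
          exact ⟨x, by rw [F1 x hx, hxy]⟩
        · refine ⟨(e.symm ⟨y, hyA, hy⟩).1, ?_⟩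
          rw [F2 _ (e.symm ⟨y, hyA, hy⟩).2]
          simp
      · exact ⟨y, F3 y hyA⟩
  refine ⟨Equiv.ofBijective F hbij, fun x hx => F3 x hx, fun x hx => F1 x hx⟩

/-- A permutation supported in `A ∪ B` that exchanges the disjoint equipotent sets `A` and `B`. -/
lemma exists_swap {A B : Set Ω} (hd : Disjoint A B) (h : #A = #B) :
    ∃ g ∈ Sy (A ∪ B), g '' A = B ∧ g '' B = A := by
  classical
  obtain ⟨e⟩ := Cardinal.eq.mp h
  let F : Ω → Ω := fun x => if hx : x ∈ A then e ⟨x, hx⟩ else if hx : x ∈ B then e.symm ⟨x, hx⟩ else x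
  have F1 : ∀ x (hx : x ∈ A), F x = e ⟨x, hx⟩ := fun x hx => dif_pos hx
  have F2 : ∀ x (hx : x ∈ B), F x = e.symm ⟨x, hx⟩ := fun x hx => by
    have : x ∉ A := fun h' => Set.disjoint_left.mp hd h' hx
    simp only [F]; rw [dif_neg this, dif_pos hx]
  have F3 : ∀ x, x ∉ A ∪ B → F x = x := fun x hx => by
    simp only [F]; rw [dif_neg (fun h => hx (Or.inl h)), dif_neg (fun h => hx (Or.inr h))]
  have hinv : Function.Involutive F := by
    intro x
    by_cases hx : x ∈ A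
    · rw [F1 x hx, F2 _ (e ⟨x, hx⟩).2]; simp
    · by_cases hx' : x ∈ B
      · rw [F2 x hx', F1 _ (e.symm ⟨x, hx'⟩).2]; simp
      · have : x ∉ A ∪ B := fun h => h.elim hx hx'
        rw [F3 x this, F3 x this]
  have i1 : F '' A = B := by
    apply subset_antisymm
    · rintro _ ⟨x, hx, rfl⟩; rw [F1 x hx]; exact (e ⟨x, hx⟩).2
    · intro y hy
      refine ⟨(e.symm ⟨y, hy⟩).1, (e.symm ⟨y, hy⟩).2, ?_⟩
      rw [F1 _ (e.symm ⟨y, hy⟩).2]; simp
  have i2 : F '' B = A := by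
    rw [← i1, ← image_comp, hinv.comp_self, image_id]
  exact ⟨hinv.toPerm, fun x hx => F3 x hx, i1, i2⟩

/-- `Sym(A)` and `Sym(B)` generate `Sym(A ∪ B)` when `A ∩ B` is infinite and at least as large as
`B \ A`. -/
theorem Sy_union_le {H : Subgroup (Equiv.Perm Ω)} {A B : Set Ω} (hA : Sy A ≤ H) (hB : Sy B ≤ H)
    (hinf : ℵ₀ ≤ #(A ∩ B : Set Ω)) (hle : #(B \ A : Set Ω) ≤ #(A ∩ B : Set Ω)) :
    Sy (A ∪ B) ≤ H := by
  classical
  set C := A ∩ B with hC
  set D := B \ A with hD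
  obtain ⟨D', hD'C, hD'c, hCD'⟩ := exists_subset_compl hinf hle
  have hdisj : Disjoint D D' := by
    rw [Set.disjoint_left]
    intro x hx hx'
    exact hx.2 (hD'C hx').1
  obtain ⟨b₁, hb₁, hb₁D, hb₁D'⟩ := exists_swap hdisj hD'c.symm
  have hb₁H : b₁ ∈ H := by
    apply hB
    apply Sy_mono _ hb₁
    rintro x (hx | hx)
    · exact hx.1
    · exact (hD'C hx).2
  have hAinf : ℵ₀ ≤ #A := hinf.trans (mk_mono inter_subset_left)
  -- the good case
  have good : ∀ g ∈ Sy (A ∪ B), #(A \ (g '' D) : Set Ω) = #A → g ∈ H := by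
    intro g hg hgood
    -- `D'_D`: the points of `D'` that have to go to `D`; `D'_A`: those that have to go to `A`
    have hgD : g '' D ⊆ A ∪ B := by
      rintro _ ⟨x, hx, rfl⟩
      exact Sy_mem_of_mem hg (Or.inr hx.1)
    let φ : Ω → Ω := fun y => g (b₁⁻¹ y)
    have hφinj : Function.Injective φ := g.injective.comp (b₁⁻¹).injective
    let PD : Set Ω := {y | y ∈ D' ∧ φ y ∈ D}
    let PA : Set Ω := {y | y ∈ D' ∧ φ y ∈ A}
    have hinvD' : ∀ y ∈ D', b₁⁻¹ y ∈ D := by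
      intro y hy
      rw [← hb₁D] at hy
      obtain ⟨x, hx, rfl⟩ := hy
      rw [perm_inv_self]; exact hx
    -- step 2: `b₂ ∈ Sym(B)` extends `PD → φ PD`
    have hPDimg : φ '' PD ⊆ D := by rintro _ ⟨y, hy, rfl⟩; exact hy.2
    have hdis2 : Disjoint PD (φ '' PD) := by
      rw [Set.disjoint_left]
      intro y hy hy'
      exact (hPDimg hy').2 (hD'C hy.1).1
    obtain ⟨b₂, hb₂, hb₂e⟩ : ∃ b₂ ∈ Sy (PD ∪ φ '' PD), ∀ x ∈ PD, b₂ x = φ x := by
      apply exists_perm_extend subset_union_left subset_union_right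
      · exact (hφinj.injOn).bijOn_image
      · rw [union_sdiff_left, union_sdiff_right, hdis2.sdiff_eq_left, hdis2.sdiff_eq_right]
        exact mk_image_eq hφinj
    have hb₂H : b₂ ∈ H := by
      apply hB
      apply Sy_mono _ hb₂
      rintro x (hx | hx)
      · exact (hD'C hx.1).2
      · exact (hPDimg hx).1
    -- step 3: `a₃ ∈ Sym(A)` extends `PA → φ PA`
    have hPA : PA ⊆ A := fun y hy => (hD'C hy.1).1
    have hPAimg : φ '' PA ⊆ A := by rintro _ ⟨y, hy, rfl⟩; exact hy.2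
    obtain ⟨a₃, ha₃, ha₃e⟩ : ∃ a₃ ∈ Sy A, ∀ x ∈ PA, a₃ x = φ x := by
      apply exists_perm_extend hPA hPAimg ((hφinj.injOn).bijOn_image)
      have e1 : #(A \ PA : Set Ω) = #A := by
        apply mk_diff_eq_of_le hAinf
        calc #(A ∩ PA : Set Ω) ≤ #D' := mk_mono fun y hy => hy.2.1
          _ ≤ #C := hD'c ▸ hle
          _ = #(C \ D' : Set Ω) := hCD'.symm
          _ ≤ #(A \ PA : Set Ω) := mk_mono fun y hy => ⟨hy.1.1, fun h => hy.2 h.1⟩
      have e2 : #(A \ (φ '' PA) : Set Ω) = #A := by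
        apply le_antisymm (mk_mono sdiff_subset)
        rw [← hgood]
        apply mk_mono
        intro y hy
        refine ⟨hy.1, ?_⟩
        rintro ⟨z, hz, rfl⟩
        exact hy.2 ⟨_, hinvD' z hz.1, rfl⟩
      rw [e1, e2]
    have ha₃H : a₃ ∈ H := hA ha₃
    -- `h = a₃ b₂ b₁` agrees with `g` on `D`
    have hagree : ∀ x ∈ D, (a₃ * b₂ * b₁) x = g x := by
      intro x hx
      have hy : b₁ x ∈ D' := hb₁D ▸ ⟨x, hx, rfl⟩
      have hφ : φ (b₁ x) = g x := by simp [φ]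
      rw [Equiv.Perm.mul_apply, Equiv.Perm.mul_apply]
      by_cases h : g x ∈ A
      · have hyPA : b₁ x ∈ PA := ⟨hy, hφ ▸ h⟩
        have h1 : b₂ (b₁ x) = b₁ x := by
          apply hb₂
          rintro (h2 | h2)
          · exact (hφ ▸ h2.2 : g x ∈ D).2 h
          · exact (hPDimg h2).2 (hD'C hy).1
        rw [h1, ha₃e _ hyPA, hφ]
      · have hgx : g x ∈ D := ⟨(hgD ⟨x, hx, rfl⟩).resolve_left h, h⟩
        have hyPD : b₁ x ∈ PD := ⟨hy, hφ ▸ hgx⟩
        rw [hb₂e _ hyPD, hφ]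
        exact ha₃ _ h
    have hrest : (a₃ * b₂ * b₁)⁻¹ * g ∈ Sy A := by
      intro x hx
      rw [Equiv.Perm.mul_apply, Equiv.Perm.inv_eq_iff_eq]
      by_cases h : x ∈ B
      · exact (hagree x ⟨h, hx⟩).symm
      · have hx' : x ∉ A ∪ B := fun h' => h'.elim hx h
        rw [hg x hx', Equiv.Perm.mul_apply, Equiv.Perm.mul_apply]
        have h1 : b₁ x = x := hb₁ x fun h' => h'.elim (fun h2 => h h2.1) (fun h2 => h (hD'C h2).2)
        have h2 : b₂ x = x := hb₂ x fun h' => h'.elim (fun h3 => h (hD'C h3.1).2)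
          (fun h3 => h (hPDimg h3).1)
        rw [h1, h2, ha₃ x hx]
    have : g = (a₃ * b₂ * b₁) * ((a₃ * b₂ * b₁)⁻¹ * g) := by group
    rw [this]
    exact H.mul_mem (H.mul_mem (H.mul_mem ha₃H hb₂H) hb₁H) (hA hrest)
  intro g hg
  by_cases hgood : #(A \ (g '' D) : Set Ω) = #A
  · exact good g hg hgood
  -- otherwise `D \ g D` is large, and `b₁⁻¹ g` is good
  have hb₁inv : b₁⁻¹ ∈ Sy (A ∪ B) := by
    apply Subgroup.inv_mem
    apply Sy_mono _ hb₁
    rintro x (hx | hx)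
    · exact Or.inr hx.1
    · exact Or.inl (hD'C hx).1
  have key : b₁⁻¹ * g ∈ H := by
    apply good _ (Subgroup.mul_mem _ hb₁inv hg)
    have hlt : #(A \ (g '' D) : Set Ω) < #A := lt_of_le_of_ne (mk_mono sdiff_subset) hgood
    -- `g A ⊆ (A \ g D) ∪ (D \ g D)`
    have h1 : g '' A ⊆ (A \ (g '' D)) ∪ (D \ (g '' D)) := by
      rintro _ ⟨x, hx, rfl⟩
      have h2 : g x ∉ g '' D := by
        rintro ⟨y, hy, hyx⟩
        exact (g.injective hyx ▸ hy : x ∈ D).2 hx
      rcases Sy_mem_of_mem hg (Or.inl hx : x ∈ A ∪ B) with h3 | h3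
      · exact Or.inl ⟨h3, h2⟩
      · by_cases h4 : g x ∈ A
        · exact Or.inl ⟨h4, h2⟩
        · exact Or.inr ⟨⟨h3, h4⟩, h2⟩
    have h2 : #A ≤ #(D \ (g '' D) : Set Ω) := by
      by_contra h3
      push Not at h3
      have h4 := mk_lt_of_union hAinf h1 hlt h3
      rw [mk_image_eq g.injective] at h4
      exact lt_irrefl _ h4
    apply le_antisymm (mk_mono sdiff_subset)
    calc #A ≤ #(D \ (g '' D) : Set Ω) := h2
      _ = #((b₁⁻¹ : Equiv.Perm Ω) '' (D \ (g '' D)) : Set Ω) := (mk_image_eq (b₁⁻¹).injective).symm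
      _ ≤ _ := by
        apply mk_mono
        rintro _ ⟨x, hx, rfl⟩
        refine ⟨?_, ?_⟩
        · have : b₁⁻¹ x ∈ D' := by
            have h3 := hx.1
            rw [← hb₁D'] at h3
            obtain ⟨y, hy, rfl⟩ := h3
            rw [perm_inv_self]; exact hy
          exact (hD'C this).1
        · rintro ⟨y, hy, hyx⟩
          apply hx.2
          refine ⟨y, hy, ?_⟩
          rw [Equiv.Perm.mul_apply] at hyx
          exact (b₁⁻¹).injective hyx
  have : g = b₁ * (b₁⁻¹ * g) := by group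
  rw [this]
  exact H.mul_mem hb₁H key

end Pool.Agent.R629.Filt
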