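import Pool.Agent.R629.Filt.Stab

set_option autoImplicit false

/-!
Homogeneity of a filter expressed by embeddings, without reference to the stabilizer.
-/

open Cardinal Set

universe u

namespace Pool.Agent.R629.Filt

variable {Ω : Type u}

/-- `B` embeds in `A` by an injection that preserves and reflects null sets. -/
def Embeds (F : Filter Ω) (B A : Set Ω) : Prop :=
  ∃ φ : Ω → Ω, InjOn φ B ∧ MapsTo φ B A ∧ ∀ C ⊆ B, (Null F (φ '' C) ↔ Null F C)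

/-- Every non-null set contains copies of finitely many sets whose union is in `F`. -/
def Hom (F : Filter Ω) : Prop :=
  ∀ A : Set Ω, ¬ Null F A → ∃ S : Set (Set Ω), S.Finite ∧ ⋃₀ S ∈ F ∧ ∀ B ∈ S, Embeds F B A

lemma exists_swap_fun {B : Set Ω} {φ : Ω → Ω} (hφ : InjOn φ B) (hd : Disjoint (φ '' B) B) :
    ∃ g : Equiv.Perm Ω, (∀ x ∈ B, g x = φ x) ∧ (∀ x ∈ B, g (φ x) = x) ∧
      ∀ x, x ∉ B → x ∉ φ '' B → g x = x := by
  classical
  have hB : ∀ y (hy : y ∈ φ '' B), ∃ x, x ∈ B ∧ φ x = y := fun y hy => hy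
  choose ψ hψ1 hψ2 using hB
  let G : Ω → Ω := fun x => if x ∈ B then φ x else if hx : x ∈ φ '' B then ψ x hx else x
  have G1 : ∀ x ∈ B, G x = φ x := fun x hx => if_pos hx
  have G2 : ∀ x (hx : x ∈ φ '' B), G x = ψ x hx := fun x hx => by
    have : x ∉ B := fun h => Set.disjoint_left.mp hd hx h
    simp only [G]; rw [if_neg this, dif_pos hx]
  have G3 : ∀ x, x ∉ B → x ∉ φ '' B → G x = x := fun x hx hx' => by
    simp only [G]; rw [if_neg hx, dif_neg hx']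
  have G4 : ∀ x ∈ B, G (φ x) = x := fun x hx => by
    rw [G2 _ ⟨x, hx, rfl⟩]
    exact hφ (hψ1 _ _) hx (hψ2 _ _)
  have hinv : Function.Involutive G := by
    intro x
    by_cases hx : x ∈ B
    · rw [G1 x hx, G4 x hx]
    · by_cases hx' : x ∈ φ '' B
      · rw [G2 x hx', G1 _ (hψ1 x hx'), hψ2]
      · rw [G3 x hx hx', G3 x hx hx']
  exact ⟨hinv.toPerm, G1, G4, G3⟩

lemma swap_mem_stab {F : Filter Ω} {B : Set Ω} {φ : Ω → Ω}
    (hn : ∀ C ⊆ B, (Null F (φ '' C) ↔ Null F C)) {g : Equiv.Perm Ω}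
    (h1 : ∀ x ∈ B, g x = φ x) (h2 : ∀ x ∈ B, g (φ x) = x)
    (h3 : ∀ x, x ∉ B → x ∉ φ '' B → g x = x) : g ∈ stab F := by
  have hgg : ∀ x, g (g x) = x := by
    intro x
    by_cases hx : x ∈ B
    · rw [h1 x hx, h2 x hx]
    · by_cases hx' : x ∈ φ '' B
      · obtain ⟨y, hy, rfl⟩ := hx'
        rw [h2 y hy, h1 y hy]
      · rw [h3 x hx hx', h3 x hx hx']
  have hinv : g⁻¹ = g := by
    ext x; rw [Equiv.Perm.inv_eq_iff_eq, hgg]
  have key : ∀ A, Null F A → Null F (g '' A) := by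
    intro A hA
    have e1 : Null F (φ '' (A ∩ B)) :=
      (hn _ inter_subset_right).mpr (hA.mono inter_subset_left)
    have e2 : Null F {x | x ∈ B ∧ φ x ∈ A} := by
      rw [← hn _ (fun x hx => hx.1)]
      refine hA.mono ?_
      rintro _ ⟨x, hx, rfl⟩; exact hx.2
    refine ((e1.union e2).union hA).mono ?_
    rintro _ ⟨x, hx, rfl⟩
    by_cases hxB : x ∈ B
    · rw [h1 x hxB]; exact Or.inl (Or.inl ⟨x, ⟨hx, hxB⟩, rfl⟩)
    · by_cases hx' : x ∈ φ '' B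
      · obtain ⟨y, hy, rfl⟩ := hx'
        rw [h2 y hy]; exact Or.inl (Or.inr ⟨hy, hx⟩)
      · rw [h3 x hxB hx']; exact Or.inr hx
  exact mem_stab_of key (by rw [hinv]; exact key)

/-- An injective function on `B` without fixed points: `B` is a union of three sets, each disjoint
from its image. -/
lemma exists_three {B : Set Ω} {φ : Ω → Ω} (hφ : InjOn φ B) (hfix : ∀ x ∈ B, φ x ≠ x) :
    ∃ B₁ B₂ B₃ : Set Ω, B₁ ∪ B₂ ∪ B₃ = B ∧ Disjoint (φ '' B₁) B₁ ∧ Disjoint (φ '' B₂) B₂ ∧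
      Disjoint (φ '' B₃) B₃ := by
  obtain ⟨B₁, hmax⟩ := zorn_subset {D : Set Ω | D ⊆ B ∧ Disjoint (φ '' D) D} (by
    intro c hc hchain
    refine ⟨⋃₀ c, ⟨sUnion_subset fun D hD => (hc hD).1, ?_⟩, fun D hD => subset_sUnion_of_mem hD⟩
    rw [Set.disjoint_left]
    rintro _ ⟨x, ⟨D, hD, hx⟩, rfl⟩ ⟨D', hD', hx'⟩
    rcases hchain.total hD hD' with h | h
    · exact Set.disjoint_left.mp (hc hD').2 ⟨x, h hx, rfl⟩ hx'
    · exact Set.disjoint_left.mp (hc hD).2 ⟨x, hx, rfl⟩ (h hx'))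
  have hB₁ : B₁ ⊆ B := hmax.prop.1
  have hd₁ := hmax.prop.2
  have hmem : ∀ x ∈ B, x ∉ B₁ → x ∈ φ '' B₁ ∨ φ x ∈ B₁ := by
    intro x hx hx1
    by_contra hcon
    push Not at hcon
    apply hx1
    have h1 : insert x B₁ ∈ {D : Set Ω | D ⊆ B ∧ Disjoint (φ '' D) D} := by
      refine ⟨insert_subset hx hB₁, ?_⟩
      rw [Set.disjoint_left]
      rintro _ ⟨y, hy, rfl⟩ hy'
      rcases hy with rfl | hy
      · rcases hy' with h | h
        · exact hfix _ hx h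
        · exact hcon.2 h
      · rcases hy' with h | h
        · exact hcon.1 ⟨y, hy, h⟩
        · exact Set.disjoint_left.mp hd₁ ⟨y, hy, rfl⟩ h
    exact hmax.le_of_ge h1 (subset_insert x B₁) (mem_insert x B₁)
  refine ⟨B₁, {x | x ∈ B ∧ x ∉ B₁ ∧ x ∈ φ '' B₁}, {x | x ∈ B ∧ x ∉ B₁ ∧ φ x ∈ B₁}, ?_, hd₁, ?_, ?_⟩
  · ext x
    constructor
    · rintro ((h | h) | h)
      · exact hB₁ h
      · exact h.1
      · exact h.1
    · intro hx
      by_cases h1 : x ∈ B₁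
      · exact Or.inl (Or.inl h1)
      · rcases hmem x hx h1 with h | h
        · exact Or.inl (Or.inr ⟨hx, h1, h⟩)
        · exact Or.inr ⟨hx, h1, h⟩
  · rw [Set.disjoint_left]
    rintro _ ⟨x, hx, rfl⟩ hx'
    obtain ⟨y, hy, hyx⟩ := hx'.2.2
    exact hx.2.1 (hφ (hB₁ hy) hx.1 hyx ▸ hy)
  · rw [Set.disjoint_left]
    rintro _ ⟨x, hx, rfl⟩ hx'
    exact hx'.2.1 hx.2.2

lemma exists_cover_of_embeds {F : Filter Ω} {A B : Set Ω} (h : Embeds F B A) :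
    ∃ T : Set (Equiv.Perm Ω), T.Finite ∧ (∀ g ∈ T, g ∈ stab F) ∧
      B ⊆ ⋃ g ∈ T, (g : Ω → Ω) '' A := by
  obtain ⟨φ, hφ, hA, hn⟩ := h
  obtain ⟨B₁, B₂, B₃, hB, h1, h2, h3⟩ := exists_three (B := {x ∈ B | φ x ≠ x}) (φ := φ)
    (hφ.mono fun x hx => hx.1) (fun x hx => hx.2)
  have hsub : ∀ B' : Set Ω, B' ⊆ B → Disjoint (φ '' B') B' →
      ∃ g ∈ stab F, B' ⊆ (g : Ω → Ω) '' A := by
    intro B' hB' hd
    obtain ⟨g, g1, g2, g3⟩ := exists_swap_fun (hφ.mono hB') hd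
    refine ⟨g, swap_mem_stab (fun C hC => hn C (hC.trans hB')) g1 g2 g3, ?_⟩
    intro x hx
    exact ⟨φ x, hA (hB' hx), g2 x hx⟩
  have s1 : B₁ ⊆ B := fun x hx => ((hB ▸ Or.inl (Or.inl hx) : x ∈ {x ∈ B | φ x ≠ x})).1
  have s2 : B₂ ⊆ B := fun x hx => ((hB ▸ Or.inl (Or.inr hx) : x ∈ {x ∈ B | φ x ≠ x})).1
  have s3 : B₃ ⊆ B := fun x hx => ((hB ▸ Or.inr hx : x ∈ {x ∈ B | φ x ≠ x})).1
  obtain ⟨g₁, m1, c1⟩ := hsub B₁ s1 h1
  obtain ⟨g₂, m2, c2⟩ := hsub B₂ s2 h2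
  obtain ⟨g₃, m3, c3⟩ := hsub B₃ s3 h3
  refine ⟨{1, g₁, g₂, g₃}, by simp, ?_, ?_⟩
  · rintro g (rfl | rfl | rfl | rfl)
    · exact Subgroup.one_mem _
    · exact m1
    · exact m2
    · exact m3
  · intro x hx
    by_cases hfix : φ x = x
    · refine mem_iUnion₂.mpr ⟨1, by simp, x, ?_, rfl⟩
      have := hA hx
      rwa [hfix] at this
    · have hx' : x ∈ B₁ ∪ B₂ ∪ B₃ := hB ▸ ⟨hx, hfix⟩
      rcases hx' with (h | h) | h
      · exact mem_iUnion₂.mpr ⟨g₁, by simp, c1 h⟩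
      · exact mem_iUnion₂.mpr ⟨g₂, by simp, c2 h⟩
      · exact mem_iUnion₂.mpr ⟨g₃, by simp, c3 h⟩

theorem homStab_iff_hom {F : Filter Ω} : HomStab F ↔ Hom F := by
  constructor
  · intro h A hA
    obtain ⟨T, hT, h1, h2⟩ := h A hA
    refine ⟨(fun g : Equiv.Perm Ω => (g : Ω → Ω) '' A) '' T, hT.image _, ?_, ?_⟩
    · rwa [sUnion_image]
    · rintro _ ⟨g, hg, rfl⟩
      have hgi := Subgroup.inv_mem _ (h1 g hg)
      refine ⟨(g⁻¹ : Equiv.Perm Ω), (g⁻¹).injective.injOn, ?_, fun C _ =>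
        mem_stab_iff.mp hgi C⟩
      rintro _ ⟨x, hx, rfl⟩
      rw [perm_inv_self]; exact hx
  · intro h A hA
    obtain ⟨S, hS, h1, h2⟩ := h A hA
    choose! T hT hTs hTc using fun B (hB : B ∈ S) => exists_cover_of_embeds (h2 B hB)
    refine ⟨⋃ B ∈ S, T B, hS.biUnion hT, ?_, ?_⟩
    · intro g hg
      obtain ⟨B, hB, hg⟩ := mem_iUnion₂.mp hg
      exact hTs B hB g hg
    · refine F.mem_of_superset h1 ?_
      rintro x ⟨B, hB, hx⟩
      obtain ⟨g, hg, hxg⟩ := mem_iUnion₂.mp (hTc B hB hx)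
      exact mem_iUnion₂.mpr ⟨g, mem_iUnion₂.mpr ⟨B, hB, hg⟩, hxg⟩

end Pool.Agent.R629.Filt
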