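import Pool.Agent.R629.Filt.NotTall

set_option autoImplicit false

/-!
Setwise stabilizers, and filters with nonempty intersection.
-/

open Cardinal Set Filter

universe u

namespace Pool.Agent.R629.Filt

variable {Ω : Type u}

lemma null_principal {X A : Set Ω} : Null (𝓟 X) A ↔ Disjoint X A := by
  unfold Null
  rw [Filter.mem_principal, Set.subset_compl_iff_disjoint_right]

lemma mem_stab_principal {X : Set Ω} {g : Equiv.Perm Ω} : g ∈ stab (𝓟 X) ↔ g '' X = X := by
  change Filter.map g (𝓟 X) = 𝓟 X ↔ _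
  rw [Filter.map_principal, Filter.principal_eq_iff_eq]

lemma swap_mem_Sy [DecidableEq Ω] {x y : Ω} {A : Set Ω} (hx : x ∈ A) (hy : y ∈ A) :
    Equiv.swap x y ∈ Sy A := by
  intro z hz
  apply Equiv.swap_apply_of_ne_of_ne
  · rintro rfl; exact hz hx
  · rintro rfl; exact hz hy

lemma Sy_le_stab_principal_self {X : Set Ω} : Sy X ≤ stab (𝓟 X) := by
  intro g hg
  rw [mem_stab_principal]
  apply Set.Subset.antisymm
  · rintro _ ⟨x, hx, rfl⟩; exact Sy_mem_of_mem hg hx
  · intro x hx
    exact ⟨g⁻¹ x, Sy_mem_of_mem ((Sy X).inv_mem hg) hx, perm_self_inv g x⟩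

lemma Sy_le_stab_principal_compl {X : Set Ω} : Sy Xᶜ ≤ stab (𝓟 X) :=
  Sy_le_stab (null_principal.mpr disjoint_compl_right)

lemma stab_principal_ne_top {X : Set Ω} (hne : X.Nonempty) (hne' : Xᶜ.Nonempty) :
    stab (𝓟 X) ≠ ⊤ := by
  classical
  obtain ⟨x, hx⟩ := hne
  obtain ⟨y, hy⟩ := hne'
  intro htop
  have h1 : Equiv.swap x y ∈ stab (𝓟 X) := htop ▸ Subgroup.mem_top _
  rw [mem_stab_principal] at h1
  apply hy
  rw [← h1]
  exact ⟨x, hx, Equiv.swap_apply_left x y⟩

/-- The setwise stabilizer of a finite nonempty subset of an infinite set is maximal. -/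
theorem isCoatom_setwise [Infinite Ω] {X : Set Ω} (hX : X.Finite) (hne : X.Nonempty) :
    IsCoatom (stab (𝓟 X)) := by
  classical
  refine ⟨stab_principal_ne_top hne hX.infinite_compl.nonempty, fun H hH => ?_⟩
  have h1 := hH.le
  have hP : ∃ n, ∃ Z : Set Ω, Z.Finite ∧ Z.ncard = n ∧ Sy Zᶜ ≤ H :=
    ⟨_, X, hX, rfl, Sy_le_stab_principal_compl.trans h1⟩
  obtain ⟨Z, hZ, hZn, hZH⟩ := Nat.find_spec hP
  have hmin : ∀ Z' : Set Ω, Z'.Finite → Sy Z'ᶜ ≤ H → Z.ncard ≤ Z'.ncard := by
    intro Z' hZ' hZ'H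
    rw [hZn]
    exact Nat.find_min' hP ⟨Z', hZ', rfl, hZ'H⟩
  have hfix : H ≤ stab (𝓟 Z) := by
    intro g hg
    rw [mem_stab_principal]
    have hgZ : Sy (g '' Z)ᶜ ≤ H := by
      rw [← Set.image_compl_eq g.bijective]
      exact Sy_image_le hg hZH
    have hgf : (g '' Z).Finite := hZ.image _
    have hinf : ℵ₀ ≤ #(Zᶜ ∩ (g '' Z)ᶜ : Set Ω) := by
      rw [← Set.compl_union, ← infinite_iff]
      exact (hZ.union hgf).infinite_compl.to_subtype
    have hle : #((g '' Z)ᶜ \ Zᶜ : Set Ω) ≤ #(Zᶜ ∩ (g '' Z)ᶜ : Set Ω) := by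
      refine le_trans ?_ hinf
      have : ((g '' Z)ᶜ \ Zᶜ : Set Ω) ⊆ Z := fun x hx => not_not.mp hx.2
      exact (Set.Finite.lt_aleph0 (hZ.subset this)).le
    have hU := Sy_union_le hZH hgZ hinf hle
    rw [← Set.compl_inter] at hU
    have h2 := hmin _ (hZ.inter_of_left (g '' Z)) hU
    have h3 : Z ∩ g '' Z = Z := Set.eq_of_subset_of_ncard_le Set.inter_subset_left h2 hZ
    have h4 : Z ⊆ g '' Z := Set.inter_eq_left.mp h3
    exact (Set.eq_of_subset_of_ncard_le h4 (Set.ncard_image_of_injective Z g.injective).le hgf).symm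
  rcases Z.eq_empty_or_nonempty with rfl | ⟨z, hz⟩
  · rw [Set.compl_empty, Sy_univ] at hZH
    exact eq_top_iff.mpr hZH
  · exfalso
    have hle : stab (𝓟 X) ≤ stab (𝓟 Z) := h1.trans hfix
    have hmove : ∀ z ∈ Z, ∀ y, Equiv.swap z y ∈ stab (𝓟 X) → y ∈ Z := by
      intro z hz y hy
      have := mem_stab_principal.mp (hle hy)
      rw [← this]
      exact ⟨z, hz, Equiv.swap_apply_left z y⟩
    have hsub : Z ⊆ X := by
      intro z hz
      by_contra hzX
      apply hX.infinite_compl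
      refine hZ.subset fun y hy => hmove z hz y ?_
      exact Sy_le_stab_principal_compl (swap_mem_Sy hzX hy)
    have hsup : X ⊆ Z := fun y hy => hmove z hz y (Sy_le_stab_principal_self (swap_mem_Sy (hsub hz) hy))
    have heq : X = Z := Set.Subset.antisymm hsup hsub
    subst heq
    exact absurd (hH.trans_le hfix) (lt_irrefl _)

/-- The filter of the sets that contain almost all elements of `X`. -/
def almostFin (X : Set Ω) : Filter Ω :=
  Filter.comk (fun A => (X ∩ A).Finite) (by simp)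
    (fun A hA B hB => hA.subset (Set.inter_subset_inter_right X hB))
    (fun A hA B hB => by rw [Set.inter_union_distrib_left]; exact hA.union hB)

lemma null_almostFin {X A : Set Ω} : Null (almostFin X) A ↔ (X ∩ A).Finite := by
  unfold Null almostFin
  rw [Filter.mem_comk, compl_compl]

lemma not_isCoatom_of_le {F : Filter Ω} {X : Set Ω} (hX : X.Infinite) (hX' : Xᶜ.Infinite)
    (hle : stab F ≤ stab (𝓟 X)) : ¬ IsCoatom (stab F) := by
  classical
  intro hc
  have h1 : stab (𝓟 X) ≤ stab (almostFin X) := by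
    intro g hg
    rw [mem_stab_principal] at hg
    rw [mem_stab_iff]
    intro A
    rw [null_almostFin, null_almostFin]
    conv_lhs => rw [← hg, ← Set.image_inter g.injective]
    exact Set.finite_image_iff g.injective.injOn
  obtain ⟨x, hx⟩ := hX.nonempty
  obtain ⟨y, hy⟩ := hX'.nonempty
  have h2 : stab (𝓟 X) < stab (almostFin X) := by
    refine lt_of_le_of_ne h1 fun h => ?_
    have h3 : Equiv.swap x y ∈ stab (almostFin X) :=
      Sy_le_stab (A := {x, y}) (null_almostFin.mpr ((Set.toFinite {x, y}).inter_of_right X))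
        (swap_mem_Sy (Set.mem_insert x {y}) (Set.mem_insert_of_mem x rfl))
    rw [← h, mem_stab_principal] at h3
    apply hy
    rw [← h3]
    exact ⟨x, hx, Equiv.swap_apply_left x y⟩
  have htop := hc.2 _ (hle.trans_lt h2)
  obtain ⟨D, hD, hDc⟩ := le_mk_iff_exists_subset.mp (infinite_iff.mp hX.to_subtype)
  obtain ⟨D', hD', hDc'⟩ := le_mk_iff_exists_subset.mp (infinite_iff.mp hX'.to_subtype)
  obtain ⟨g, -, hg, -⟩ := exists_swap (A := D') (B := D)
    (Set.disjoint_left.mpr fun z hz hz' => hD' hz (hD hz')) (hDc'.trans hDc.symm)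
  have h3 : Null (almostFin X) D' := by
    rw [null_almostFin]
    have : X ∩ D' = ∅ := by
      ext z; simp only [Set.mem_inter_iff, Set.mem_empty_iff_false, iff_false]
      rintro ⟨hz, hz'⟩; exact hD' hz' hz
    rw [this]; exact Set.finite_empty
  have h4 : Null (almostFin X) D := hg ▸ h3.image (htop ▸ Subgroup.mem_top g)
  rw [null_almostFin, Set.inter_eq_right.mpr hD] at h4
  have h5 := Set.Finite.lt_aleph0 h4
  rw [hDc] at h5
  exact lt_irrefl _ h5

lemma null_of_finite {F : Filter Ω} {A : Set Ω} (hA : A.Finite) (h : ∀ x ∈ A, Null F {x}) :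
    Null F A := by
  have := null_biUnion hA h
  rwa [Set.biUnion_of_singleton] at this

/-- The least upper bound (exclusive) for the cardinalities of null sets, at least `c`. -/
lemma exists_bound (F : Filter Ω) (c : Cardinal.{u}) (hc : c ≤ #Ω) :
    ∃ μ : Cardinal.{u}, c < μ ∧ (∀ A, Null F A → #A < μ) ∧
      ∀ d : Cardinal.{u}, c < d → d < μ → ∃ A, Null F A ∧ d ≤ #A := by
  have hne : {k : Cardinal.{u} | c < k ∧ ∀ A, Null F A → #A < k}.Nonempty :=
    ⟨Order.succ #Ω, Order.lt_succ_of_le hc, fun A _ => Order.lt_succ_of_le (mk_set_le A)⟩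
  have h := csInf_mem hne
  refine ⟨_, h.1, h.2, fun d hd hdμ => ?_⟩
  have := notMem_of_lt_csInf' hdμ
  simp only [Set.mem_ofPred_eq, not_and, not_forall, not_lt] at this
  obtain ⟨A, hA, hA'⟩ := this hd
  exact ⟨A, hA, hA'⟩

/-- Filters with nonempty intersection and maximal stabilizer. -/
theorem form_of_inter_nonempty [Infinite Ω] {F : Filter Ω} (hc : IsCoatom (stab F))
    (hx : ∃ x, ¬ Null F {x}) :
    ∃ X : Set Ω, X.Finite ∧ X.Nonempty ∧ ((∀ A, Null F A ↔ A ⊆ X) ∨
      ∃ μ : Cardinal.{u}, ℵ₀ ≤ μ ∧ ∀ A, Null F A ↔ Disjoint X A ∧ #A < μ) := by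
  classical
  set X₀ : Set Ω := {x | ¬ Null F {x}} with hX₀
  have hsing : ∀ x, x ∉ X₀ → Null F {x} := fun x hx => not_not.mp hx
  have hdis : ∀ A, Null F A → Disjoint X₀ A := by
    intro A hA
    rw [Set.disjoint_left]
    intro x hx hxA
    exact hx (hA.mono (Set.singleton_subset_iff.mpr hxA))
  have hle : stab F ≤ stab (𝓟 X₀) := by
    have key : ∀ g ∈ stab F, g '' X₀ ⊆ X₀ := by
      rintro g hg _ ⟨x, hx, rfl⟩ hgx
      apply hx
      apply Null.of_image hg
      rwa [Set.image_singleton]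
    intro g hg
    rw [mem_stab_principal]
    refine Set.Subset.antisymm (key g hg) fun x hx => ?_
    exact ⟨g⁻¹ x, key g⁻¹ (Subgroup.inv_mem _ hg) ⟨x, hx, rfl⟩, perm_self_inv g x⟩
  have hne : X₀.Nonempty := hx
  have hne' : X₀ᶜ.Nonempty := by
    by_contra h
    rw [Set.not_nonempty_iff_eq_empty, Set.compl_empty_iff] at h
    apply hc.1
    apply stab_eq_top_of_card (c := 1)
    intro A
    rw [Cardinal.lt_one_iff, Cardinal.mk_eq_zero_iff, Set.isEmpty_coe_sort]
    constructor
    · intro hA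
      have := hdis A hA
      rwa [h, Set.univ_disjoint] at this
    · rintro rfl; exact null_empty
  have heq : stab F = stab (𝓟 X₀) := by
    rcases hle.eq_or_lt with h | h
    · exact h
    · exact absurd (hc.2 _ h) (stab_principal_ne_top hne hne')
  by_cases hfin : X₀.Finite
  · refine ⟨X₀, hfin, hne, Or.inr ?_⟩
    have hne2 : {k : Cardinal.{u} | ℵ₀ ≤ k ∧ ∀ A, Null F A → #A < k}.Nonempty :=
      ⟨Order.succ #Ω, (infinite_iff.mp inferInstance).trans (Order.le_succ _),
        fun A _ => Order.lt_succ_of_le (mk_set_le A)⟩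
    have h := csInf_mem hne2
    refine ⟨_, h.1, fun A => ⟨fun hA => ⟨hdis A hA, h.2 A hA⟩, fun hA => ?_⟩⟩
    by_cases hAf : A.Finite
    · exact null_of_finite hAf fun x hx => hsing x fun hx' => Set.disjoint_left.mp hA.1 hx' hx
    · have hAinf : ℵ₀ ≤ #A := infinite_iff.mp (Set.Infinite.to_subtype hAf)
      have h2 := notMem_of_lt_csInf' hA.2
      simp only [Set.mem_ofPred_eq, not_and, not_forall, not_lt] at h2
      obtain ⟨C, hC, hAC⟩ := h2 hAinf
      apply null_of_Sy_le (W := X₀ᶜ) (heq ▸ Sy_le_stab_principal_compl) _ hC _ hAinf hAC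
      · exact fun x hx hx' => Set.disjoint_left.mp (hdis C hC) hx' hx
      · exact fun x hx hx' => Set.disjoint_left.mp hA.1 hx' hx
  · by_cases hfin' : X₀ᶜ.Finite
    · refine ⟨X₀ᶜ, hfin', hne', Or.inl fun A => ⟨fun hA x hx hx' =>
        Set.disjoint_left.mp (hdis A hA) hx' hx, fun hA => ?_⟩⟩
      exact null_of_finite (hfin'.subset hA) fun x hx => hsing x (hA hx)
    · exact absurd hc (not_isCoatom_of_le hfin hfin' hle)

end Pool.Agent.R629.Filt
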