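import Pool.Agent.R629.Filt.Small

set_option autoImplicit false

/-!
Stabilizers of filters on finite sets.
-/

open Cardinal Set Filter

universe u

namespace Pool.Agent.R629.Filt

variable {Ω : Type u}

lemma eq_principal_of_finite [Finite Ω] (F : Filter Ω) : ∃ X : Set Ω, F = 𝓟 X := by
  refine ⟨⋂₀ F.sets, ?_⟩
  have h : ⋂₀ F.sets ∈ F := (Filter.sInter_mem (Set.toFinite F.sets)).mpr fun U hU => hU
  ext s
  rw [Filter.mem_principal]
  exact ⟨fun hs => Set.sInter_subset_of_mem hs, fun hs => F.mem_of_superset h hs⟩

open Pointwise in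
lemma stab_principal_eq_stabilizer (X : Set Ω) :
    stab (𝓟 X) = MulAction.stabilizer (Equiv.Perm Ω) X := by
  ext g
  rw [mem_stab_principal, MulAction.mem_stabilizer_iff]
  rfl

theorem isCoatom_finite_iff [Finite Ω] {X : Set Ω} (hX : X.Nonempty) :
    IsCoatom (stab (𝓟 X)) ↔ X ≠ Set.univ ∧ (Nat.card Ω ≠ 2 * X.ncard ∨ Nat.card Ω = 2) := by
  classical
  constructor
  · intro hc
    refine ⟨?_, ?_⟩
    · rintro rfl
      apply hc.1
      rw [eq_top_iff]
      intro g _
      rw [mem_stab_principal, Set.image_univ, g.surjective.range_eq]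
    · by_contra hcon
      push Not at hcon
      obtain ⟨h1, h2⟩ := hcon
      have h3 : X.ncard + Xᶜ.ncard = Nat.card Ω := Set.ncard_add_ncard_compl X
      have h4 : Xᶜ.ncard = X.ncard := by omega
      have h5 : 0 < X.ncard := (Set.ncard_pos (Set.toFinite X)).mpr hX
      have h6 : #X = #(Xᶜ : Set Ω) := by
        rw [← Set.cast_ncard (Set.toFinite X), ← Set.cast_ncard (Set.toFinite Xᶜ), h4]
      obtain ⟨g, -, hg1, hg2⟩ := exists_swap (A := X) (B := Xᶜ) disjoint_compl_right h6
      set Q : Set Ω → Prop := fun A => A = X ∨ A = Xᶜ with hQ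
      have hinj : Function.Injective (fun A : Set Ω => g '' A) := Set.image_injective.mpr g.injective
      have hXX : X ≠ Xᶜ := by
        obtain ⟨x, hx⟩ := hX
        intro h
        have hx' : x ∈ Xᶜ := h ▸ hx
        exact hx' hx
      have hle : stab (𝓟 X) < predStab Q := by
        refine lt_of_le_of_ne ?_ ?_
        · intro k hk A
          rw [mem_stab_principal] at hk
          have hk' : k '' Xᶜ = Xᶜ := by rw [Set.image_compl_eq k.bijective, hk]
          have hki : Function.Injective (fun A : Set Ω => k '' A) :=
            Set.image_injective.mpr k.injective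
          simp only [hQ]
          constructor
          · rintro (h | h)
            · exact Or.inl (hki (h.trans hk.symm))
            · exact Or.inr (hki (h.trans hk'.symm))
          · rintro (h | h)
            · exact Or.inl (h ▸ hk)
            · exact Or.inr (h ▸ hk')
        · intro heq
          have hgQ : g ∈ predStab Q := by
            intro A
            simp only [hQ]
            constructor
            · rintro (h | h)
              · exact Or.inr (hinj (h.trans hg2.symm))
              · exact Or.inl (hinj (h.trans hg1.symm))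
            · rintro (h | h)
              · exact Or.inr (h ▸ hg1)
              · exact Or.inl (h ▸ hg2)
          rw [← heq, mem_stab_principal, hg1] at hgQ
          exact hXX hgQ.symm
      have htop := hc.2 _ hle
      have h7 : 1 < X.ncard := by omega
      obtain ⟨x, x', hx, hx', hne⟩ := (Set.one_lt_ncard_iff (Set.toFinite X)).mp h7
      have h8 : (Xᶜ).Nonempty := (Set.ncard_pos (Set.toFinite Xᶜ)).mp (by omega)
      obtain ⟨y, hy⟩ := h8
      have hs : Equiv.swap x y ∈ predStab Q := htop ▸ Subgroup.mem_top _
      have hs' := (hs X).mpr (Or.inl rfl)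
      have m1 : y ∈ Equiv.swap x y '' X := ⟨x, hx, Equiv.swap_apply_left x y⟩
      have m2 : x' ∈ Equiv.swap x y '' X := by
        refine ⟨x', hx', Equiv.swap_apply_of_ne_of_ne hne.symm ?_⟩
        rintro rfl; exact hy hx'
      rcases hs' with h | h
      · rw [h] at m1; exact hy m1
      · rw [h] at m2; exact m2 hx'
  · rintro ⟨h1, h2⟩
    have hXc : Xᶜ.Nonempty := Set.nonempty_compl.mpr h1
    by_cases h3 : Nat.card Ω ≠ 2 * X.ncard
    · rw [stab_principal_eq_stabilizer]
      exact Equiv.Perm.isCoatom_stabilizer hX hXc h3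
    · have h4 : Nat.card Ω = 2 := h2.resolve_left h3
      push Not at h3
      have h5 : X.ncard = 1 := by omega
      have h6 : X.ncard + Xᶜ.ncard = Nat.card Ω := Set.ncard_add_ncard_compl X
      have h7 : Xᶜ.ncard = 1 := by omega
      obtain ⟨x, rfl⟩ := Set.ncard_eq_one.mp h5
      obtain ⟨y, hy⟩ := Set.ncard_eq_one.mp h7
      have hxy : ∀ z, z ≠ x → z = y := by
        intro z hz
        have : z ∈ ({x} : Set Ω)ᶜ := hz
        rw [hy] at this
        exact this
      refine ⟨stab_principal_ne_top hX hXc, fun H hH => ?_⟩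
      obtain ⟨h8, g, hgH, hgs⟩ := SetLike.lt_iff_le_and_exists.mp hH
      have hmem : ∀ k : Equiv.Perm Ω, k x = x → k ∈ stab (𝓟 ({x} : Set Ω)) := by
        intro k hk
        rw [mem_stab_principal, Set.image_singleton, hk]
      have hgx : g x = y := hxy _ fun h => hgs (hmem g h)
      rw [eq_top_iff]
      intro k _
      by_cases hk : k x = x
      · exact h8 (hmem k hk)
      · have hkx : k x = y := hxy _ hk
        have : g⁻¹ * k ∈ stab (𝓟 ({x} : Set Ω)) := by
          apply hmem
          rw [Equiv.Perm.mul_apply, hkx, ← hgx, perm_inv_self]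
        have e : k = g * (g⁻¹ * k) := by group
        rw [e]
        exact H.mul_mem hgH (h8 this)

end Pool.Agent.R629.Filt
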