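import Pool.Agent.R629.Filt.Stab

set_option autoImplicit false

/-!
Closed filters of infinite depth with an almost intersection.
-/

open Cardinal Set

universe u

namespace Pool.Agent.R629.Filt

variable {Ω : Type u}

lemma stab_le_stab {F G : Filter Ω} (h : ∀ g ∈ stab F, ∀ A, Null G A → Null G (g '' A)) :
    stab F ≤ stab G := fun g hg =>
  mem_stab_of (h g hg) (h g⁻¹ (Subgroup.inv_mem _ hg))

lemma filter_ext_null {F G : Filter Ω} (h : ∀ A, Null F A ↔ Null G A) : F = G := by
  ext s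
  have := h sᶜ
  unfold Null at this
  rwa [compl_compl] at this

/-- If being null depends on the cardinality only, the stabilizer is the whole group. -/
lemma stab_eq_top_of_card {F : Filter Ω} {c : Cardinal.{u}} (h : ∀ A, Null F A ↔ #A < c) :
    stab F = ⊤ := by
  rw [eq_top_iff]
  intro g _
  rw [mem_stab_iff]
  intro A
  rw [h, h, mk_image_eq g.injective]

/-- The permutations that preserve a property of sets. -/
def predStab (Q : Set Ω → Prop) : Subgroup (Equiv.Perm Ω) where
  carrier := {g | ∀ A, Q (g '' A) ↔ Q A}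
  mul_mem' := by
    intro g h hg hh A
    rw [Equiv.Perm.coe_mul, image_comp]
    exact (hg _).trans (hh _)
  one_mem' := by
    intro A
    rw [Equiv.Perm.coe_one, image_id]
  inv_mem' := by
    intro g hg A
    have := hg ((g⁻¹ : Equiv.Perm Ω) '' A)
    rw [← image_comp] at this
    have e : (g : Ω → Ω) ∘ ((g⁻¹ : Equiv.Perm Ω) : Ω → Ω) = id := by
      ext x; exact perm_self_inv g x
    rw [e, image_id] at this
    exact this.symm

/-- The sets whose intersection with every null set has cardinality less than `l`. -/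
def Perp (F : Filter Ω) (l : Cardinal.{u}) (B : Set Ω) : Prop :=
  ∀ C, Null F C → #(B ∩ C : Set Ω) < l

lemma Perp.mono {F : Filter Ω} {l : Cardinal.{u}} {A B : Set Ω} (hB : Perp F l B) (h : A ⊆ B) :
    Perp F l A := fun C hC => (mk_mono (inter_subset_inter_left C h)).trans_lt (hB C hC)

lemma Perp.union {F : Filter Ω} {l : Cardinal.{u}} (hl : ℵ₀ ≤ l) {A B : Set Ω} (hA : Perp F l A)
    (hB : Perp F l B) : Perp F l (A ∪ B) := fun C hC =>
  mk_lt_of_union hl (by rw [union_inter_distrib_right]) (hA C hC) (hB C hC)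

lemma perp_of_small {F : Filter Ω} {l : Cardinal.{u}} {A : Set Ω} (hA : #A < l) : Perp F l A :=
  fun _ _ => (mk_mono inter_subset_left).trans_lt hA

lemma Perp.image {F : Filter Ω} {l : Cardinal.{u}} {g : Equiv.Perm Ω} (hg : g ∈ stab F)
    {A : Set Ω} (hA : Perp F l A) : Perp F l (g '' A) := by
  intro C hC
  have h1 : Null F ((g⁻¹ : Equiv.Perm Ω) '' C) := hC.image (Subgroup.inv_mem _ hg)
  refine lt_of_le_of_lt ?_ (hA _ h1)
  rw [← mk_image_eq (s := A ∩ (g⁻¹ : Equiv.Perm Ω) '' C) g.injective]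
  apply mk_mono
  rintro _ ⟨⟨x, hx, rfl⟩, hx'⟩
  exact ⟨x, ⟨hx, g x, hx', perm_inv_self g x⟩, rfl⟩

/-- The ideal generated by the null sets and the sets in `Perp F l`. -/
def perpFilter (F : Filter Ω) {l : Cardinal.{u}} (hl : ℵ₀ ≤ l) : Filter Ω :=
  Filter.comk (fun A => ∃ B, Perp F l B ∧ Null F (A \ B))
    ⟨∅, perp_of_small (by
      rw [mk_eq_zero]; exact aleph0_pos.trans_le hl), by simpa using null_empty⟩
    (by
      rintro A ⟨B, h1, h2⟩ A' hA'
      exact ⟨B, h1, h2.mono (sdiff_subset_sdiff_left hA')⟩)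
    (by
      rintro A ⟨B, h1, h2⟩ A' ⟨B', h1', h2'⟩
      refine ⟨B ∪ B', h1.union hl h1', (h2.union h2').mono ?_⟩
      rintro x ⟨hx | hx, hx'⟩
      · exact Or.inl ⟨hx, fun h => hx' (Or.inl h)⟩
      · exact Or.inr ⟨hx, fun h => hx' (Or.inr h)⟩)

lemma null_perpFilter {F : Filter Ω} {l : Cardinal.{u}} {hl : ℵ₀ ≤ l} {A : Set Ω} :
    Null (perpFilter F hl) A ↔ ∃ B, Perp F l B ∧ Null F (A \ B) := by
  unfold Null perpFilter
  rw [Filter.mem_comk, compl_compl]
  rfl

lemma stab_le_perpFilter {F : Filter Ω} {l : Cardinal.{u}} {hl : ℵ₀ ≤ l} :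
    stab F ≤ stab (perpFilter F hl) := by
  apply stab_le_stab
  intro g hg A hA
  rw [null_perpFilter] at hA ⊢
  obtain ⟨B, h1, h2⟩ := hA
  refine ⟨g '' B, h1.image hg, (h2.image hg).mono ?_⟩
  rintro _ ⟨⟨x, hx, rfl⟩, hx'⟩
  exact ⟨x, ⟨hx, fun h => hx' ⟨x, h, rfl⟩⟩, rfl⟩

/-- The almost stabilizer of a moiety is not maximal. -/
lemma not_isCoatom_moiety {F : Filter Ω} {B : Set Ω} (hB : ℵ₀ ≤ #B) (hBc : #(Bᶜ : Set Ω) = #B)
    (hF : ∀ A, Null F A ↔ #(B ∩ A : Set Ω) < #B) : ¬ IsCoatom (stab F) := by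
  intro hc
  have hnull : Null F Bᶜ := by
    rw [hF, inter_compl_self, mk_eq_zero]; exact aleph0_pos.trans_le hB
  -- `Perp F` consists of the sets with small intersection with the complement of `B`
  have hperp : ∀ A, Perp F #B A ↔ #(Bᶜ ∩ A : Set Ω) < #B := by
    intro A
    constructor
    · intro h
      rw [inter_comm]
      exact h _ hnull
    · intro h C hC
      apply mk_lt_of_union hB _ h ((hF C).mp hC)
      rintro x ⟨hx, hx'⟩
      by_cases hxB : x ∈ B
      · exact Or.inr ⟨hxB, hx'⟩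
      · exact Or.inl ⟨hxB, hx⟩
  set Q : Set Ω → Prop := fun A => Null F A ∨ Perp F #B A with hQ
  have hle : stab F ≤ predStab Q := by
    intro g hg A
    have hi := Subgroup.inv_mem _ hg
    constructor
    · rintro (h | h)
      · exact Or.inl (h.of_image hg)
      · have := h.image hi
        rw [← image_comp] at this
        have e : ((g⁻¹ : Equiv.Perm Ω) : Ω → Ω) ∘ g = id := by ext x; exact perm_inv_self g x
        rw [e, image_id] at this
        exact Or.inr this
    · rintro (h | h)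
      · exact Or.inl (h.image hg)
      · exact Or.inr (h.image hg)
  -- the swap of `B` and its complement
  obtain ⟨g, -, hg1, hg2⟩ := exists_swap (A := B) (B := Bᶜ) disjoint_compl_right hBc.symm
  have c1 : ∀ A : Set Ω, #(B ∩ (g '' A) : Set Ω) = #(Bᶜ ∩ A : Set Ω) := by
    intro A
    rw [← mk_image_eq (s := Bᶜ ∩ A) g.injective, image_inter g.injective, hg2]
  have c2 : ∀ A : Set Ω, #(Bᶜ ∩ (g '' A) : Set Ω) = #(B ∩ A : Set Ω) := by
    intro A
    rw [← mk_image_eq (s := B ∩ A) g.injective, image_inter g.injective, hg1]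
  have hgQ : g ∈ predStab Q := by
    intro A
    simp only [hQ]
    rw [hF, hF, hperp, hperp, c1, c2]
    exact or_comm
  have hgF : g ∉ stab F := by
    intro h
    have := hnull.image h
    rw [hg2, hF, inter_self] at this
    exact lt_irrefl _ this
  have hlt : stab F < predStab Q := lt_of_le_of_ne hle fun h => hgF (h ▸ hgQ)
  have htop := hc.2 _ hlt
  -- a permutation that exchanges half of `B` with half of the complement
  obtain ⟨B₁, B₂, hBB, hd, h1, h2⟩ := exists_split hB
  obtain ⟨B₃, B₄, hBB', hd', h3, h4⟩ := exists_split (A := Bᶜ) (hBc.symm ▸ hB)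
  have hs1 : B₁ ⊆ B := hBB ▸ subset_union_left
  have hs2 : B₂ ⊆ B := hBB ▸ subset_union_right
  have hs3 : B₃ ⊆ Bᶜ := hBB' ▸ subset_union_left
  obtain ⟨k, hk, hk1, hk2⟩ := exists_swap (A := B₁) (B := B₃)
    (Set.disjoint_left.mpr fun x hx hx' => hs3 hx' (hs1 hx)) (by rw [h1, h3, hBc])
  have hkQ : k ∈ predStab Q := htop ▸ Subgroup.mem_top k
  have hQB : Q B := by
    right
    rw [hperp, compl_inter_self, mk_eq_zero]; exact aleph0_pos.trans_le hB
  have hkB := (hkQ B).mpr hQB
  have e2 : ∀ x ∈ B₂, k x = x := by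
    intro x hx
    apply hk
    rintro (h | h)
    · exact Set.disjoint_left.mp hd h hx
    · exact hs3 h (hs2 hx)
  rcases hkB with h | h
  · rw [hF] at h
    apply absurd h (not_lt.mpr _)
    rw [← h2]
    apply mk_mono
    intro x hx
    exact ⟨hs2 hx, x, hs2 hx, e2 x hx⟩
  · rw [hperp] at h
    apply absurd h (not_lt.mpr _)
    rw [← hBc, ← h3]
    apply mk_mono
    intro x hx
    refine ⟨hs3 hx, ?_⟩
    rw [← hk1] at hx
    obtain ⟨y, hy, rfl⟩ := hx
    exact ⟨y, hs1 hy, rfl⟩

/-- A closed filter of infinite depth `l` with an almost intersection of cardinality `l`, and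
maximal stabilizer. -/
theorem form_of_almost_intersection {F : Filter Ω} {l : Cardinal.{u}} [F.NeBot] (h : Cl F l)
    {Φ : Set Ω} (hΦ : #Φ = l) (hP : Perp F l Φ) (hc : IsCoatom (stab F)) :
    ∃ B : Set Ω, #B = l ∧ l < #Ω ∧ ∀ A, Null F A ↔ #(B ∩ A : Set Ω) < l := by
  obtain ⟨Y, hY, hYl⟩ := h.mem
  have hlΩ : l ≤ #Ω := hYl ▸ mk_set_le Y
  have hpos : 0 < l := aleph0_pos.trans_le h.inf
  -- there is a null set of cardinality `l`
  obtain ⟨N, hN, hNl⟩ : ∃ N, Null F N ∧ #N = l := by
    by_contra hcon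
    push Not at hcon
    apply hc.1
    apply stab_eq_top_of_card (c := l)
    intro A
    refine ⟨fun hA => ?_, h.small A⟩
    by_contra h'
    push Not at h'
    obtain ⟨N, hNA, hN⟩ := le_mk_iff_exists_subset.mp h'
    exact hcon N (hA.mono hNA) hN
  by_cases hK : Null (perpFilter F h.inf) Set.univ
  · obtain ⟨B, hB, hBc⟩ := null_perpFilter.mp hK
    rw [← compl_eq_univ_sdiff] at hBc
    have hF : ∀ A, Null F A ↔ #(B ∩ A : Set Ω) < l := by
      intro A
      refine ⟨fun hA => hB A hA, fun hA => ?_⟩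
      refine ((h.small _ hA).union hBc).mono fun x hx => ?_
      by_cases hxB : x ∈ B
      · exact Or.inl ⟨hxB, hx⟩
      · exact Or.inr hxB
    have hBn : ¬ Null F B := fun h' => by
      have := h'.union hBc
      rw [union_compl_self] at this
      exact not_null_univ this
    have hBl : #B = l := by
      apply le_antisymm _ (h.le_of_not_null hBn)
      refine mk_le_of_union h.inf (B := B ∩ Yᶜ) (C := Y) ?_ (hB _ (null_compl hY)).le hYl.le
      intro x hx
      by_cases hxY : x ∈ Y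
      · exact Or.inr hxY
      · exact Or.inl ⟨hx, hxY⟩
    refine ⟨B, hBl, lt_of_le_of_ne hlΩ fun hl => ?_, hF⟩
    by_cases hBcl : #(Bᶜ : Set Ω) < l
    · apply hc.1
      apply stab_eq_top_of_card (c := l)
      intro A
      rw [hF]
      refine ⟨fun hA => ?_, fun hA => (mk_mono inter_subset_right).trans_lt hA⟩
      apply mk_lt_of_union h.inf _ hA hBcl
      intro x hx
      by_cases hxB : x ∈ B
      · exact Or.inl ⟨hxB, hx⟩
      · exact Or.inr hxB
    · push Not at hBcl
      have e : #(Bᶜ : Set Ω) = #B := by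
        rw [hBl]
        exact le_antisymm (hl ▸ mk_set_le _) hBcl
      subst hBl
      exact not_isCoatom_moiety h.inf e hF hc
  · exfalso
    have hΦK : Null (perpFilter F h.inf) Φ := null_perpFilter.mpr ⟨Φ, hP, by simpa using null_empty⟩
    have hFK : ∀ A, Null F A → Null (perpFilter F h.inf) A := fun A hA =>
      null_perpFilter.mpr ⟨∅, perp_of_small (by rw [mk_eq_zero]; exact hpos), by simpa using hA⟩
    rcases stab_le_perpFilter.eq_or_lt with heq | hlt
    · -- the swap of `N \ Φ` and `Φ`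
      have h1 : #(N \ Φ : Set Ω) = l := by
        rw [← hNl]
        apply mk_diff_eq (hNl ▸ h.inf)
        rw [inter_comm, hNl]
        exact hP N hN
      obtain ⟨g, hg, hg1, -⟩ := exists_swap (A := N \ Φ) (B := Φ) disjoint_sdiff_left
        (h1.trans hΦ.symm)
      have h2 : g ∈ stab F := by
        rw [heq]
        exact Sy_le_stab (((hFK N hN).mono sdiff_subset).union hΦK) hg
      have h3 : Null F Φ := hg1 ▸ (hN.mono sdiff_subset).image h2
      have h4 := hP Φ h3
      rw [inter_self, hΦ] at h4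
      exact lt_irrefl _ h4
    · have htop := hc.2 _ hlt
      have h1 : #(Φ ∩ Y : Set Ω) = l := by
        have h2 : #(Φ \ Yᶜ : Set Ω) = #Φ := by
          apply mk_diff_eq (hΦ ▸ h.inf)
          rw [hΦ]
          exact hP _ (null_compl hY)
        rw [sdiff_compl] at h2
        exact h2.trans hΦ
      have h3 : ¬ Null (perpFilter F h.inf) (Y \ Φ) := by
        intro h4
        apply hK
        refine ((h4.union hΦK).union (hFK _ (null_compl hY))).mono fun x _ => ?_
        by_cases hxY : x ∈ Y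
        · by_cases hxΦ : x ∈ Φ
          · exact Or.inl (Or.inr hxΦ)
          · exact Or.inl (Or.inl ⟨hxY, hxΦ⟩)
        · exact Or.inr hxY
      have h4 : #(Y \ Φ : Set Ω) = l := by
        apply le_antisymm (hYl ▸ mk_mono sdiff_subset)
        by_contra h5
        push Not at h5
        exact h3 (hFK _ (h.small _ h5))
      obtain ⟨g, -, hg1, -⟩ := exists_swap (A := Φ ∩ Y) (B := Y \ Φ)
        (Set.disjoint_left.mpr fun x hx hx' => hx'.2 hx.1) (h1.trans h4.symm)
      apply h3
      rw [← hg1]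
      exact (hΦK.mono inter_subset_left).image (htop ▸ Subgroup.mem_top g)

/-- The almost stabilizer of an infinite set `Φ` of cardinality less than `#Ω` is maximal. -/
theorem isCoatom_almost {F : Filter Ω} {Φ : Set Ω} (hΦ : ℵ₀ ≤ #Φ) (hΦΩ : #Φ < #Ω)
    (hF : ∀ A, Null F A ↔ #(Φ ∩ A : Set Ω) < #Φ) : IsCoatom (stab F) := by
  have hpos : 0 < #Φ := aleph0_pos.trans_le hΦ
  have hnull : Null F Φᶜ := by rw [hF, inter_compl_self, mk_eq_zero]; exact hpos
  have hΩ : ℵ₀ ≤ #(Set.univ : Set Ω) := by rw [mk_univ]; exact hΦ.trans hΦΩ.le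
  have hcc : #(Φᶜ : Set Ω) = #Ω := by
    have := mk_diff_eq' (A := Set.univ) (B := Φ) hΩ (by rwa [mk_univ])
    rwa [← compl_eq_univ_sdiff, mk_univ] at this
  refine ⟨?_, fun H hH => ?_⟩
  · intro htop
    obtain ⟨Φ', hΦ'c, hΦ'⟩ := le_mk_iff_exists_subset.mp (hcc.symm ▸ hΦΩ.le : #Φ ≤ #(Φᶜ : Set Ω))
    obtain ⟨g, -, hg1, -⟩ := exists_swap (A := Φ') (B := Φ)
      (Set.disjoint_left.mpr fun x hx hx' => hΦ'c hx hx') hΦ'
    have h1 : Null F Φ := hg1 ▸ (hnull.mono hΦ'c).image (htop ▸ Subgroup.mem_top g)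
    rw [hF, inter_self] at h1
    exact lt_irrefl _ h1
  · obtain ⟨h1, h2⟩ := SetLike.lt_iff_le_and_exists.mp hH
    obtain ⟨g, hgH, hgs⟩ := h2
    obtain ⟨k, hk, A, hA, hkA⟩ := exists_of_notMem_stab hgs hgH
    have hΦH : Sy Φ ≤ H := by
      refine le_trans (fun g hg => ?_) h1
      have hgΦ : g '' Φ = Φ := by
        apply subset_antisymm
        · rintro _ ⟨x, hx, rfl⟩; exact Sy_mem_of_mem hg hx
        · intro x hx
          exact ⟨g⁻¹ x, Sy_mem_of_mem ((Sy Φ).inv_mem hg) hx, perm_self_inv g x⟩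
      rw [mem_stab_iff]
      intro A
      rw [hF, hF]
      have : #(Φ ∩ g '' A : Set Ω) = #(Φ ∩ A : Set Ω) := by
        conv_lhs => rw [← hgΦ, ← image_inter g.injective]
        rw [mk_image_eq g.injective]
      rw [this]
    have hA' : Null F (A ∪ Φᶜ) := hA.union hnull
    set B := k '' (A ∪ Φᶜ) with hB
    have hBn : ¬ Null F B := fun h => hkA (h.mono (image_mono subset_union_left))
    have hBH : Sy B ≤ H := Sy_image_le hk ((Sy_le_stab hA').trans h1)
    have hBc : #(Bᶜ : Set Ω) ≤ #Φ := by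
      rw [← mk_image_eq (s := Φ) k.injective]
      apply mk_mono
      rw [hB, ← image_compl_eq k.bijective]
      apply image_mono
      intro x hx
      by_contra hx'
      exact hx (Or.inr hx')
    have hBW : #(B ∩ Φᶜ : Set Ω) = #Ω := by
      have h3 : #(Bᶜ ∪ Φ : Set Ω) < #(Set.univ : Set Ω) := by
        rw [mk_univ]
        exact (mk_le_of_union hΦ Subset.rfl hBc le_rfl).trans_lt hΦΩ
      have := mk_diff_eq' hΩ h3
      rwa [← compl_eq_univ_sdiff, compl_union, compl_compl, mk_univ] at this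
    have hWH : Sy Φᶜ ≤ H := (Sy_le_stab hnull).trans h1
    have h3 : Sy (B ∪ Φᶜ) ≤ H := Sy_union_le hBH hWH (hBW.symm ▸ (hΦ.trans hΦΩ.le))
      (hBW.symm ▸ mk_set_le _)
    have h4 : #Φ ≤ #((B ∪ Φᶜ) ∩ Φ : Set Ω) := by
      rw [hF] at hBn
      push Not at hBn
      refine hBn.trans (mk_mono ?_)
      intro x hx
      exact ⟨Or.inl hx.2, hx.1⟩
    have h5 := Sy_union_le h3 hΦH (hΦ.trans h4) ((mk_mono sdiff_subset).trans h4)
    have h6 : B ∪ Φᶜ ∪ Φ = Set.univ := by
      rw [union_assoc, compl_union_self, union_univ]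
    rw [h6, Sy_univ] at h5
    exact eq_top_iff.mpr h5

end Pool.Agent.R629.Filt
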