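import Pool.Agent.R629.Filt.Fin

set_option autoImplicit false

/-!
Filters for which the least cardinality `κ` of a non-null set is less than `#Ω`.
-/

open Cardinal Set

universe u

namespace Pool.Agent.R629.Filt

variable {Ω : Type u}

/-- The permutations with support of cardinality at most `κ`. -/
def Bd (κ : Cardinal.{u}) (hκ : ℵ₀ ≤ κ) : Subgroup (Equiv.Perm Ω) where
  carrier := {g | #{x | g x ≠ x} ≤ κ}
  mul_mem' := by
    intro g h hg hh
    refine mk_le_of_union hκ ?_ hg hh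
    intro x hx
    by_cases h1 : h x = x
    · left
      intro h2
      apply hx
      change g (h x) = x
      rw [h1, h2]
    · exact Or.inr h1
  one_mem' := by
    have : {x : Ω | (1 : Equiv.Perm Ω) x ≠ x} = ∅ := by
      ext x; simp
    change #{x : Ω | (1 : Equiv.Perm Ω) x ≠ x} ≤ κ
    rw [this, mk_eq_zero]
    exact zero_le
  inv_mem' := by
    intro g hg
    refine le_trans (mk_mono ?_) hg
    intro x hx h1
    apply hx
    rw [Equiv.Perm.inv_eq_iff_eq]
    exact h1.symm

instance (κ : Cardinal.{u}) (hκ : ℵ₀ ≤ κ) : (Bd (Ω := Ω) κ hκ).Normal where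
  conj_mem := by
    intro h hh g
    have e : {x | (g * h * g⁻¹) x ≠ x} ⊆ g '' {x | h x ≠ x} := by
      intro x hx
      refine ⟨g⁻¹ x, ?_, perm_self_inv g x⟩
      intro h1
      apply hx
      rw [Equiv.Perm.mul_apply, Equiv.Perm.mul_apply, h1, perm_self_inv]
    refine (mk_mono e).trans ?_
    rw [mk_image_eq g.injective]
    exact hh

/-- Glue permutations with pairwise disjoint supports. -/
lemma exists_glue {ι : Type*} {I : Set ι} {D : ι → Set Ω} {g : ι → Equiv.Perm Ω}
    (hg : ∀ i ∈ I, g i ∈ Sy (D i)) (hD : I.PairwiseDisjoint D) :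
    ∃ k : Equiv.Perm Ω, ∀ i ∈ I, ∀ x ∈ D i, k x = g i x := by
  classical
  let G : (ι → Equiv.Perm Ω) → Ω → Ω := fun g x => if h : ∃ i ∈ I, x ∈ D i then g h.choose x else x
  have G1 : ∀ g : ι → Equiv.Perm Ω, ∀ i ∈ I, ∀ x ∈ D i, G g x = g i x := by
    intro g i hi x hx
    have h : ∃ i ∈ I, x ∈ D i := ⟨i, hi, hx⟩
    have h2 : h.choose = i := by
      by_contra hne
      exact Set.disjoint_left.mp (hD h.choose_spec.1 hi hne) h.choose_spec.2 hx
    simp only [G]
    rw [dif_pos h, h2]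
  have G2 : ∀ g : ι → Equiv.Perm Ω, ∀ x, (¬ ∃ i ∈ I, x ∈ D i) → G g x = x := by
    intro g x hx
    simp only [G]
    rw [dif_neg hx]
  have key : ∀ g : ι → Equiv.Perm Ω, (∀ i ∈ I, g i ∈ Sy (D i)) → ∀ x,
      G (fun i => (g i)⁻¹) (G g x) = x := by
    intro g hg x
    by_cases hx : ∃ i ∈ I, x ∈ D i
    · obtain ⟨i, hi, hx⟩ := hx
      rw [G1 g i hi x hx, G1 (fun i => (g i)⁻¹) i hi _ (Sy_mem_of_mem (hg i hi) hx)]
      exact perm_inv_self (g i) x
    · rw [G2 g x hx, G2 (fun i => (g i)⁻¹) x hx]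
  refine ⟨⟨G g, G fun i => (g i)⁻¹, key g hg, ?_⟩, fun i hi x hx => G1 g i hi x hx⟩
  intro x
  have := key (fun i => (g i)⁻¹) (fun i hi => (Sy (D i)).inv_mem (hg i hi)) x
  simpa using this

lemma stab_ne_top_of_cl {G : Filter Ω} {κ : Cardinal.{u}} [G.NeBot] (h : Cl G κ) (hκ : κ < #Ω) :
    stab G ≠ ⊤ := by
  intro htop
  obtain ⟨Z, hZ, hZκ⟩ := h.mem
  have hΩ : ℵ₀ ≤ #(Set.univ : Set Ω) := by rw [mk_univ]; exact h.inf.trans hκ.le
  have hcc : #(Zᶜ : Set Ω) = #Ω := by
    have := mk_diff_eq' (A := Set.univ) (B := Z) hΩ (by rwa [mk_univ, hZκ])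
    rwa [← compl_eq_univ_sdiff, mk_univ] at this
  obtain ⟨Z', hZ'c, hZ'⟩ := le_mk_iff_exists_subset.mp (hcc.symm ▸ hκ.le : κ ≤ #(Zᶜ : Set Ω))
  obtain ⟨g, -, hg1, -⟩ := exists_swap (A := Z') (B := Z)
    (Set.disjoint_left.mpr fun x hx hx' => hZ'c hx hx') (hZ'.trans hZκ.symm)
  have h1 : Null G Z := hg1 ▸ ((null_compl hZ).mono hZ'c).image (htop ▸ Subgroup.mem_top g)
  have h2 := h1.union (null_compl hZ)
  rw [union_compl_self] at h2
  exact not_null_univ h2

lemma Sy_le_stab_of_inter {F : Filter Ω} {Φ : Set Ω} {c : Cardinal.{u}}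
    (hF : ∀ A, Null F A ↔ #(Φ ∩ A : Set Ω) < c) : Sy Φ ≤ stab F := by
  intro g hg
  have hgΦ : g '' Φ = Φ := by
    apply Set.Subset.antisymm
    · rintro _ ⟨x, hx, rfl⟩; exact Sy_mem_of_mem hg hx
    · intro x hx
      exact ⟨g⁻¹ x, Sy_mem_of_mem ((Sy Φ).inv_mem hg) hx, perm_self_inv g x⟩
  rw [mem_stab_iff]
  intro A
  rw [hF, hF]
  have : #(Φ ∩ g '' A : Set Ω) = #(Φ ∩ A : Set Ω) := by
    conv_lhs => rw [← hgΦ, ← image_inter g.injective]
    rw [mk_image_eq g.injective]
  rw [this]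

/-- A bad pair: a non-null set and a null set, disjoint, of cardinality `κ`. -/
def Bad (F : Filter Ω) (κ : Cardinal.{u}) (p : Set Ω × Set Ω) : Prop :=
  ¬ Null F p.1 ∧ Null F p.2 ∧ #p.1 = κ ∧ #p.2 = κ ∧ Disjoint p.1 p.2

/-- Some set of cardinality at most `κ` meets all the bad pairs. -/
lemma exists_meets_bad {F : Filter Ω} {κ : Cardinal.{u}} (hκ : ℵ₀ ≤ κ)
    (hc : IsCoatom (stab F)) (hbad : ∃ p, Bad F κ p) :
    ∃ Y : Set Ω, #Y ≤ κ ∧ ∀ p, Bad F κ p → ¬ Disjoint (p.1 ∪ p.2) Y := by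
  obtain ⟨S, hmax⟩ := zorn_subset {S : Set (Set Ω × Set Ω) | (∀ p ∈ S, Bad F κ p) ∧
      S.PairwiseDisjoint fun p => p.1 ∪ p.2} (by
    intro c hcs hchain
    refine ⟨⋃₀ c, ⟨?_, ?_⟩, fun D hD => subset_sUnion_of_mem hD⟩
    · rintro p ⟨D, hD, hp⟩
      exact (hcs hD).1 p hp
    · rintro p ⟨D, hD, hp⟩ q ⟨D', hD', hq⟩ hpq
      rcases hchain.total hD hD' with h | h
      · exact (hcs hD').2 (h hp) hq hpq
      · exact (hcs hD).2 hp (h hq) hpq)
  have hSb := hmax.prop.1
  have hSd := hmax.prop.2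
  -- the stabilizer together with `Bd` generates the whole group
  have hsup : stab F ⊔ Bd κ hκ = ⊤ := by
    apply hc.2
    refine lt_of_le_of_ne le_sup_left fun heq => ?_
    obtain ⟨p, hp1, hp2, hp3, hp4, hp5⟩ := hbad
    obtain ⟨g, hg, -, hg2⟩ := exists_swap hp5 (hp3.trans hp4.symm)
    have h1 : g ∈ Bd κ hκ := by
      refine (mk_mono (B := p.1 ∪ p.2) fun x hx => ?_).trans
        (mk_le_of_union hκ Subset.rfl hp3.le hp4.le)
      by_contra h
      exact hx (hg x h)
    have h2 : g ∈ stab F := by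
      rw [heq]
      exact (le_sup_right : Bd κ hκ ≤ _) h1
    exact hp1 (hg2 ▸ hp2.image h2)
  have hSκ : #S ≤ κ := by
    have hch : ∀ p : Set Ω × Set Ω, ∃ g : Equiv.Perm Ω, p ∈ S → g ∈ Sy (p.1 ∪ p.2) ∧ g '' p.2 = p.1 := by
      intro p
      by_cases hp : p ∈ S
      · obtain ⟨-, -, hp3, hp4, hp5⟩ := hSb p hp
        obtain ⟨g, hg, -, hg2⟩ := exists_swap hp5 (hp3.trans hp4.symm)
        exact ⟨g, fun _ => ⟨hg, hg2⟩⟩
      · exact ⟨1, fun h => absurd h hp⟩
    choose g hg using hch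
    obtain ⟨k, hk⟩ := exists_glue (I := S) (D := fun p => p.1 ∪ p.2) (g := g)
      (fun p hp => (hg p hp).1) hSd
    have hk2 : k ∈ stab F ⊔ Bd κ hκ := hsup ▸ Subgroup.mem_top k
    have hk3 : k ∈ ((stab F ⊔ Bd κ hκ : Subgroup (Equiv.Perm Ω)) : Set (Equiv.Perm Ω)) := hk2
    rw [Subgroup.mul_normal] at hk3
    obtain ⟨s, hs, b, hb, hsb⟩ := Set.mem_mul.mp hk3
    have hmeet : ∀ p ∈ S, ∃ x, x ∈ p.2 ∧ b x ≠ x := by
      intro p hp
      by_contra hcon
      push Not at hcon
      have h1 : k '' p.2 = p.1 := by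
        rw [← (hg p hp).2]
        exact image_congr fun x hx => hk p hp x (Or.inr hx)
      have h2 : k '' p.2 = s '' p.2 := by
        apply image_congr
        intro x hx
        rw [← hsb, Equiv.Perm.mul_apply, hcon x hx]
      apply (hSb p hp).1
      rw [← h1, h2]
      exact (hSb p hp).2.1.image hs
    choose x hx using hmeet
    calc #S ≤ #{x | b x ≠ x} := by
          apply Cardinal.mk_le_of_injective (f := fun p : S => ⟨x p.1 p.2, (hx p.1 p.2).2⟩)
          intro p q hpq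
          have hpq' : x p.1 p.2 = x q.1 q.2 := congrArg Subtype.val hpq
          by_contra hne
          have h1 := hSd p.2 q.2 (fun h => hne (Subtype.ext h))
          exact Set.disjoint_left.mp h1 (Or.inr (hx p.1 p.2).1) (Or.inr (hpq' ▸ (hx q.1 q.2).1))
      _ ≤ κ := hb
  refine ⟨⋃ p ∈ S, (p.1 ∪ p.2), ?_, ?_⟩
  · refine (Cardinal.mk_biUnion_le (fun p : Set Ω × Set Ω => p.1 ∪ p.2) S).trans ?_
    have h1 : ⨆ p : S, #(p.1.1 ∪ p.1.2 : Set Ω) ≤ κ := by
      apply ciSup_le'
      intro p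
      obtain ⟨-, -, hp3, hp4, -⟩ := hSb p.1 p.2
      exact mk_le_of_union hκ Subset.rfl hp3.le hp4.le
    calc #S * ⨆ p : S, #(p.1.1 ∪ p.1.2 : Set Ω) ≤ κ * κ := mul_le_mul' hSκ h1
      _ = κ := mul_eq_self hκ
  · intro p hp hd
    have h1 : insert p S ∈ {S : Set (Set Ω × Set Ω) | (∀ p ∈ S, Bad F κ p) ∧
        S.PairwiseDisjoint fun p => p.1 ∪ p.2} := by
      refine ⟨?_, ?_⟩
      · rintro q (rfl | hq)
        · exact hp
        · exact hSb q hq
      · rw [Set.pairwiseDisjoint_insert]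
        refine ⟨hSd, fun q hq _ => hd.mono_right ?_⟩
        intro x hx
        exact mem_iUnion₂.mpr ⟨q, hq, hx⟩
    have h2 : p ∈ S := hmax.le_of_ge h1 (subset_insert p S) (mem_insert p S)
    have h3 : (p.1).Nonempty := by
      rw [← Set.nonempty_coe_sort, ← Cardinal.mk_ne_zero_iff, hp.2.2.1]
      exact (aleph0_pos.trans_le hκ).ne'
    obtain ⟨x, hx⟩ := h3
    exact Set.disjoint_left.mp hd (Or.inl hx) (mem_iUnion₂.mpr ⟨p, h2, Or.inl hx⟩)

theorem form_of_small {F : Filter Ω} {κ : Cardinal.{u}} (hκ : ℵ₀ ≤ κ) (hκΩ : κ < #Ω)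
    (hsmall : ∀ A : Set Ω, #A < κ → Null F A) {B₀ A₀ : Set Ω} (hB₀ : ¬ Null F B₀) (hB₀κ : #B₀ = κ)
    (hA₀ : Null F A₀) (hA₀κ : #A₀ = κ) (hc : IsCoatom (stab F)) :
    (∃ G : Filter Ω, G.NeBot ∧ Cl G κ ∧ stab F = stab G ∧
      ∃ μ : Cardinal.{u}, κ < μ ∧ ∀ A, Null F A ↔ Null G A ∧ #A < μ) ∨
    (∃ Φ : Set Ω, #Φ = κ ∧ ∀ A, Null F A ↔ #(A \ Φ : Set Ω) < κ) := by
  have hpos : 0 < κ := aleph0_pos.trans_le hκ
  have hbig : ∀ A, ¬ Null F A → κ ≤ #A := by
    intro A hA
    by_contra h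
    push Not at h
    exact hA (hsmall A h)
  have hdiff : ∀ A C : Set Ω, ¬ Null F A → Null F C → ¬ Null F (A \ C) := by
    intro A C hA hC h
    apply hA
    refine (h.union hC).mono fun x hx => ?_
    by_cases hxC : x ∈ C
    · exact Or.inr hxC
    · exact Or.inl ⟨hx, hxC⟩
  have hbadmk : ∀ A C : Set Ω, ¬ Null F A → #A = κ → Null F C → #C = κ → Bad F κ (A \ C, C) := by
    intro A C hA hAκ hC hCκ
    have h1 := hdiff A C hA hC
    exact ⟨h1, hC, le_antisymm (hAκ ▸ mk_mono sdiff_subset) (hbig _ h1), hCκ, disjoint_sdiff_left⟩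
  obtain ⟨Y, hY, hYb⟩ := exists_meets_bad hκ hc ⟨_, hbadmk B₀ A₀ hB₀ hB₀κ hA₀ hA₀κ⟩
  by_cases hβ : ∃ C, Null F C ∧ #C = κ ∧ Disjoint C Y
  · -- every set of cardinality at most `κ` disjoint from `Y` is null
    left
    obtain ⟨C, hC, hCκ, hCY⟩ := hβ
    have hα : ∀ A : Set Ω, #A ≤ κ → Disjoint A Y → Null F A := by
      intro A hA hAY
      rcases hA.lt_or_eq with h | h
      · exact hsmall A h
      · by_contra hAn
        apply hYb _ (hbadmk A C hAn h hC hCκ)
        rw [Set.disjoint_union_left]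
        exact ⟨hAY.mono_left sdiff_subset, hCY⟩
    have hYn : ¬ Null F Y := by
      intro h
      apply hB₀
      refine (h.union (hα (B₀ \ Y) (hB₀κ ▸ mk_mono sdiff_subset) disjoint_sdiff_left)).mono
        fun x hx => ?_
      by_cases hxY : x ∈ Y
      · exact Or.inl hxY
      · exact Or.inr ⟨hx, hxY⟩
    have hYκ : #Y = κ := le_antisymm hY (hbig _ hYn)
    let G : Filter Ω := Filter.comk (fun A => Null F (A ∩ Y)) (by simpa using null_empty)
      (fun A hA B hB => hA.mono (inter_subset_inter_left Y hB))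
      (fun A hA B hB => by rw [union_inter_distrib_right]; exact hA.union hB)
    have hG : ∀ A, Null G A ↔ Null F (A ∩ Y) := by
      intro A
      change Aᶜ ∈ Filter.comk _ _ _ _ ↔ _
      rw [Filter.mem_comk, compl_compl]
    have hGne : G.NeBot := by
      rw [Filter.neBot_iff]
      intro hbot
      have : Null G Set.univ := by unfold Null; rw [hbot]; trivial
      rw [hG, univ_inter] at this
      exact hYn this
    have hcl : Cl G κ := by
      refine ⟨hκ, fun A hA => ?_, Y, ?_, hYκ⟩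
      · rw [hG]; exact hsmall _ ((mk_mono inter_subset_left).trans_lt hA)
      · have : Null G Yᶜ := by rw [hG, compl_inter_self]; exact null_empty
        unfold Null at this
        rwa [compl_compl] at this
    have hG2 : ∀ A, Null G A ↔ ∀ B ⊆ A, #B ≤ κ → Null F B := by
      intro A
      rw [hG]
      constructor
      · intro h B hBA hB
        refine (h.union (hα (B \ Y) ((mk_mono sdiff_subset).trans hB) disjoint_sdiff_left)).mono
          fun x hx => ?_
        by_cases hxY : x ∈ Y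
        · exact Or.inl ⟨hBA hx, hxY⟩
        · exact Or.inr ⟨hx, hxY⟩
      · intro h
        exact h _ inter_subset_left ((mk_mono inter_subset_right).trans hY)
    have hle : stab F ≤ stab G := by
      apply stab_le_stab
      intro g hg A hA
      rw [hG2] at hA ⊢
      intro B hB hBκ
      have hi := Subgroup.inv_mem _ hg
      apply Null.of_image hi
      apply hA
      · rintro _ ⟨x, hx, rfl⟩
        obtain ⟨y, hy, rfl⟩ := hB hx
        rw [perm_inv_self]; exact hy
      · rwa [mk_image_eq (g⁻¹).injective]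
    have heq : stab F = stab G := by
      rcases hle.eq_or_lt with h | h
      · exact h
      · exact absurd (hc.2 _ h) (stab_ne_top_of_cl hcl hκΩ)
    obtain ⟨μ, hμ, hμ1, hμ2⟩ := exists_bound F κ hκΩ.le
    refine ⟨G, hGne, hcl, heq, μ, hμ, fun A => ⟨fun hA => ⟨?_, hμ1 A hA⟩, ?_⟩⟩
    · rw [hG]; exact hA.mono inter_subset_left
    · rintro ⟨h1, h2⟩
      rw [hG] at h1
      have h3 : Null F (A \ Y) := by
        by_cases h4 : #(A \ Y : Set Ω) ≤ κ
        · exact hα _ h4 disjoint_sdiff_left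
        · push Not at h4
          obtain ⟨A', hA', hA'c⟩ := hμ2 _ h4 ((mk_mono sdiff_subset).trans_lt h2)
          have h5 : #(A' \ Y : Set Ω) = #A' := by
            apply mk_diff_eq' ((hκ.trans h4.le).trans hA'c)
            rw [hYκ]
            exact h4.trans_le hA'c
          apply null_of_Sy_le (W := Yᶜ) (A := A' \ Y) _ _ (hA'.mono sdiff_subset) _
            (hκ.trans h4.le) (h5 ▸ hA'c)
          · rw [heq]
            exact Sy_le_stab (by rw [hG, compl_inter_self]; exact null_empty)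
          · exact fun x hx => hx.2
          · exact fun x hx => hx.2
      refine (h1.union h3).mono fun x hx => ?_
      by_cases hxY : x ∈ Y
      · exact Or.inl ⟨hx, hxY⟩
      · exact Or.inr ⟨hx, hxY⟩
  · -- every null set is almost contained in `Y`
    right
    push Not at hβ
    have hβ' : ∀ C, Null F C → #(C \ Y : Set Ω) < κ := by
      intro C hC
      by_contra h
      push Not at h
      obtain ⟨C', hC', hC'κ⟩ := le_mk_iff_exists_subset.mp h
      apply hβ C' (hC.mono (hC'.trans sdiff_subset)) hC'κ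
      exact disjoint_sdiff_left.mono_left hC'
    let G : Filter Ω := Filter.comk (fun A => Perp F κ A)
      (perp_of_small (by rw [mk_eq_zero]; exact hpos))
      (fun A hA B hB => hA.mono hB)
      (fun A hA B hB => hA.union hκ hB)
    have hG : ∀ A, Null G A ↔ Perp F κ A := by
      intro A
      change Aᶜ ∈ Filter.comk _ _ _ _ ↔ _
      rw [Filter.mem_comk, compl_compl]
    have hYc : Null G Yᶜ := by
      rw [hG]
      intro C hC
      rw [inter_comm, ← sdiff_eq]
      exact hβ' C hC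
    have hA₀n : ¬ Null G A₀ := by
      rw [hG]
      intro h
      have := h A₀ hA₀
      rw [inter_self, hA₀κ] at this
      exact lt_irrefl _ this
    have hGne : G.NeBot := by
      rw [Filter.neBot_iff]
      intro hbot
      apply hA₀n
      unfold Null; rw [hbot]; trivial
    have hYn : ¬ Null G Y := by
      intro h
      have := h.union hYc
      rw [union_compl_self] at this
      exact not_null_univ this
    have hYκ : #Y = κ := by
      apply le_antisymm hY
      by_contra h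
      push Not at h
      exact hYn ((hG Y).mpr (perp_of_small h))
    have hcl : Cl G κ := by
      refine ⟨hκ, fun A hA => (hG A).mpr (perp_of_small hA), Y, ?_, hYκ⟩
      unfold Null at hYc
      rwa [compl_compl] at hYc
    have hle : stab F ≤ stab G := by
      apply stab_le_stab
      intro g hg A hA
      rw [hG] at hA ⊢
      exact hA.image hg
    have heq : stab F = stab G := by
      rcases hle.eq_or_lt with h | h
      · exact h
      · exact absurd (hc.2 _ h) (stab_ne_top_of_cl hcl hκΩ)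
    have hperp : Perp G κ A₀ := by
      intro C hC
      rw [inter_comm]
      exact (hG C).mp hC A₀ hA₀
    obtain ⟨B, hBκ, -, hB⟩ := form_of_almost_intersection hcl hA₀κ hperp (heq ▸ hc)
    have hSB : Sy B ≤ stab F := heq ▸ Sy_le_stab_of_inter hB
    have hBn : Null F B := by
      have h1 : κ ≤ #(B ∩ A₀ : Set Ω) := by
        rw [hB] at hA₀n
        exact not_lt.mp hA₀n
      exact null_of_Sy_le hSB inter_subset_left (hA₀.mono inter_subset_right) Subset.rfl
        (hBκ ▸ hκ) (hBκ ▸ h1)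
    refine ⟨B, hBκ, fun A => ⟨fun hA => ?_, fun hA => ?_⟩⟩
    · have h1 : Null G Bᶜ := by rw [hB, inter_compl_self, mk_eq_zero]; exact hpos
      have h2 := (hG _).mp h1 A hA
      rwa [inter_comm, ← sdiff_eq] at h2
    · refine ((hsmall _ hA).union hBn).mono fun x hx => ?_
      by_cases hxB : x ∈ B
      · exact Or.inr hxB
      · exact Or.inl ⟨hx, hxB⟩

end Pool.Agent.R629.Filt
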