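import Pool.Agent.R629.Filt.Basic

set_option autoImplicit false

/-!
Stabilizers of filters: closed filters of infinite depth without almost intersections.
-/

open Cardinal Set

universe u

namespace Pool.Agent.R629.Filt

variable {Ω : Type u}

/-- The stabilizer of the filter `F` in the symmetric group. -/
def stab (F : Filter Ω) : Subgroup (Equiv.Perm Ω) where
  carrier := {g | F.map g = F}
  mul_mem' := by
    intro g h (hg : F.map g = F) (hh : F.map h = F)
    change F.map (g * h : Equiv.Perm Ω) = F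
    rw [Equiv.Perm.coe_mul, ← Filter.map_map, hh, hg]
  one_mem' := Filter.map_id
  inv_mem' := by
    intro g (hg : F.map g = F)
    change F.map (g⁻¹ : Equiv.Perm Ω) = F
    conv_lhs => rw [← hg]
    rw [Filter.map_map]
    have : ((g⁻¹ : Equiv.Perm Ω) : Ω → Ω) ∘ g = id := by
      ext x; exact perm_inv_self g x
    rw [this, Filter.map_id]

/-- The complement of `A` is in `F`. -/
def Null (F : Filter Ω) (A : Set Ω) : Prop := Aᶜ ∈ F

lemma Null.mono {F : Filter Ω} {A B : Set Ω} (hB : Null F B) (h : A ⊆ B) : Null F A :=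
  F.mem_of_superset hB (compl_subset_compl.mpr h)

lemma Null.union {F : Filter Ω} {A B : Set Ω} (hA : Null F A) (hB : Null F B) :
    Null F (A ∪ B) := by
  unfold Null at *
  rw [compl_union]; exact F.inter_mem hA hB

lemma null_empty {F : Filter Ω} : Null F ∅ := by
  unfold Null; rw [compl_empty]; exact F.univ_mem

lemma not_null_univ {F : Filter Ω} [F.NeBot] : ¬ Null F Set.univ := by
  unfold Null; rw [compl_univ]; exact F.empty_notMem

lemma null_biUnion {F : Filter Ω} {ι : Type*} {T : Set ι} (hT : T.Finite) {f : ι → Set Ω}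
    (h : ∀ i ∈ T, Null F (f i)) : Null F (⋃ i ∈ T, f i) := by
  unfold Null at *
  rw [compl_iUnion₂]
  exact (Filter.biInter_mem hT).mpr h

lemma mem_stab_iff {F : Filter Ω} {g : Equiv.Perm Ω} :
    g ∈ stab F ↔ ∀ A, Null F (g '' A) ↔ Null F A := by
  have h0 : g ∈ stab F ↔ F.map g = F := Iff.rfl
  rw [h0]
  constructor
  · intro h A
    unfold Null
    conv_lhs => rw [← h]
    rw [Filter.mem_map, preimage_compl, preimage_image_eq _ g.injective]
  · intro h
    ext s
    rw [Filter.mem_map]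
    have := h (g ⁻¹' sᶜ)
    unfold Null at this
    rw [image_preimage_eq _ g.surjective, compl_compl, preimage_compl, compl_compl] at this
    exact this.symm

lemma Null.image {F : Filter Ω} {g : Equiv.Perm Ω} (hg : g ∈ stab F) {A : Set Ω}
    (hA : Null F A) : Null F (g '' A) := (mem_stab_iff.mp hg A).mpr hA

lemma Null.of_image {F : Filter Ω} {g : Equiv.Perm Ω} (hg : g ∈ stab F) {A : Set Ω}
    (hA : Null F (g '' A)) : Null F A := (mem_stab_iff.mp hg A).mp hA

/-- It is enough that `g` and `g⁻¹` preserve null sets. -/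
lemma mem_stab_of {F : Filter Ω} {g : Equiv.Perm Ω} (h1 : ∀ A, Null F A → Null F (g '' A))
    (h2 : ∀ A, Null F A → Null F ((g⁻¹ : Equiv.Perm Ω) '' A)) : g ∈ stab F := by
  rw [mem_stab_iff]
  refine fun A => ⟨fun h => ?_, h1 A⟩
  have := h2 _ h
  rw [← image_comp] at this
  have e : ((g⁻¹ : Equiv.Perm Ω) : Ω → Ω) ∘ g = id := by ext x; exact perm_inv_self g x
  rwa [e, image_id] at this

/-- If `g` is not in the stabilizer, then `g` or `g⁻¹` maps some null set to a non-null set. -/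
lemma exists_of_notMem_stab {F : Filter Ω} {H : Subgroup (Equiv.Perm Ω)} {g : Equiv.Perm Ω}
    (hg : g ∉ stab F) (hH : g ∈ H) : ∃ h ∈ H, ∃ A, Null F A ∧ ¬ Null F (h '' A) := by
  by_contra hcon
  push Not at hcon
  exact hg (mem_stab_of (fun A hA => hcon g hH A hA) fun A hA => hcon g⁻¹ (H.inv_mem hH) A hA)

lemma Sy_le_stab {F : Filter Ω} {A : Set Ω} (hA : Null F A) : Sy A ≤ stab F := by
  intro g hg
  apply mem_stab_of
  · intro C hC
    exact (hC.union hA).mono (Sy_image_subset hg C)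
  · intro C hC
    exact (hC.union hA).mono (Sy_image_subset ((Sy A).inv_mem hg) C)

/-- If `Sym(W)` stabilizes `F` and `W` contains a null set of cardinality at least `#B`, then the
infinite subset `B` of `W` is null. -/
lemma null_of_Sy_le {F : Filter Ω} {W A B : Set Ω} (hW : Sy W ≤ stab F) (hAW : A ⊆ W)
    (hA : Null F A) (hBW : B ⊆ W) (hB : ℵ₀ ≤ #B) (hBA : #B ≤ #A) : Null F B := by
  obtain ⟨B₁, B₂, hBB, hBd, hB₁, hB₂⟩ := exists_split hB
  obtain ⟨A', hA'A, hA'⟩ := le_mk_iff_exists_subset.mp hBA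
  obtain ⟨A₁, A₂, hAA, hAd, hA₁, hA₂⟩ := exists_split (hA'.symm ▸ hB)
  have hA₁W : A₁ ⊆ W := ((hAA ▸ subset_union_left : A₁ ⊆ A').trans hA'A).trans hAW
  have hWinf : ℵ₀ ≤ #W := hB.trans (mk_mono hBW)
  have e1 : #(W \ A₁ : Set Ω) = #W := by
    apply mk_diff_eq_of_le hWinf
    calc #(W ∩ A₁ : Set Ω) ≤ #A₁ := mk_mono inter_subset_right
      _ = #A₂ := by rw [hA₁, hA₂]
      _ ≤ _ := by
        apply mk_mono
        intro x hx
        exact ⟨hAW (hA'A (hAA ▸ Or.inr hx)), fun h => Set.disjoint_left.mp hAd h hx⟩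
  have key : ∀ B' B'' : Set Ω, B' ∪ B'' = B → Disjoint B' B'' → #B' = #B → #B'' = #B →
      Null F B' := by
    intro B' B'' hu hd h1 h2
    have hB'W : B' ⊆ W := (hu ▸ subset_union_left : B' ⊆ B).trans hBW
    have e2 : #(W \ B' : Set Ω) = #W := by
      apply mk_diff_eq_of_le hWinf
      calc #(W ∩ B' : Set Ω) ≤ #B' := mk_mono inter_subset_right
        _ = #B'' := by rw [h1, h2]
        _ ≤ _ := by
          apply mk_mono
          intro x hx
          exact ⟨hBW (hu ▸ Or.inr hx), fun h => Set.disjoint_left.mp hd h hx⟩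
    have e3 : #A₁ = #B' := by rw [hA₁, hA', h1]
    obtain ⟨e⟩ := Cardinal.eq.mp e3
    classical
    let f : Ω → Ω := fun x => if hx : x ∈ A₁ then e ⟨x, hx⟩ else x
    have hf : BijOn f A₁ B' := by
      refine ⟨fun x hx => ?_, fun x hx y hy hxy => ?_, fun y hy => ?_⟩
      · simp only [f]; rw [dif_pos hx]; exact (e ⟨x, hx⟩).2
      · simp only [f] at hxy; rw [dif_pos hx, dif_pos hy] at hxy
        exact congrArg Subtype.val (e.injective (Subtype.ext hxy))
      · refine ⟨(e.symm ⟨y, hy⟩).1, (e.symm ⟨y, hy⟩).2, ?_⟩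
        simp only [f]; rw [dif_pos (e.symm ⟨y, hy⟩).2]; simp
    obtain ⟨g, hg, hgf⟩ := exists_perm_extend hA₁W hB'W hf (e1.trans e2.symm)
    have h3 : g '' A₁ = B' := by
      rw [← hf.image_eq]
      exact image_congr hgf
    rw [← h3]
    apply Null.image (hW hg)
    exact hA.mono ((hAA ▸ subset_union_left : A₁ ⊆ A').trans hA'A)
  rw [← hBB]
  exact (key B₁ B₂ hBB hBd hB₁ hB₂).union (key B₂ B₁ (by rw [union_comm, hBB]) hBd.symm hB₂ hB₁)

/-- `F` is closed of depth `l` (an infinite cardinal): all sets of cardinality less than `l` are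
null, and some member of `F` has cardinality `l`. -/
structure Cl (F : Filter Ω) (l : Cardinal.{u}) : Prop where
  inf : ℵ₀ ≤ l
  small : ∀ A : Set Ω, #A < l → Null F A
  mem : ∃ Y ∈ F, #Y = l

/-- Every set of cardinality `l` contains a null set of cardinality `l`. -/
def Tall (F : Filter Ω) (l : Cardinal.{u}) : Prop :=
  ∀ A : Set Ω, #A = l → ∃ B ⊆ A, Null F B ∧ #B = l

section

variable {F : Filter Ω} {l : Cardinal.{u}}

lemma Cl.le_of_not_null (h : Cl F l) {A : Set Ω} (hA : ¬ Null F A) : l ≤ #A := by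
  by_contra h'
  push Not at h'
  exact hA (h.small A h')

lemma not_null_inter {Y A : Set Ω} (hY : Y ∈ F) (hA : ¬ Null F A) : ¬ Null F (A ∩ Y) := by
  intro h
  apply hA
  have h2 : Null F Yᶜ := by unfold Null; rwa [compl_compl]
  refine (h.union h2).mono fun x hx => ?_
  by_cases hxY : x ∈ Y
  · exact Or.inl ⟨hx, hxY⟩
  · exact Or.inr hxY

lemma null_compl {Y : Set Ω} (hY : Y ∈ F) : Null F Yᶜ := by
  unfold Null; rwa [compl_compl]

/-- A non-null set `A` meets some null set in a set of cardinality `#A`. -/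
lemma exists_null_large (h : Cl F l) (ht : Tall F l) {A : Set Ω} (hA : ¬ Null F A) :
    ∃ N, Null F N ∧ ℵ₀ ≤ #(N ∩ A : Set Ω) ∧ #A ≤ #(N ∩ A : Set Ω) := by
  obtain ⟨Y, hY, hYl⟩ := h.mem
  have h1 := not_null_inter hY hA
  have h2 : #(A ∩ Y : Set Ω) = l :=
    le_antisymm (hYl ▸ mk_mono inter_subset_right) (h.le_of_not_null h1)
  obtain ⟨B, hBA, hB, hBl⟩ := ht _ h2
  refine ⟨B ∪ Yᶜ, hB.union (null_compl hY), ?_, ?_⟩
  · calc ℵ₀ ≤ l := h.inf
      _ = #B := hBl.symm
      _ ≤ #((B ∪ Yᶜ) ∩ A : Set Ω) :=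
        mk_mono (B := (B ∪ Yᶜ) ∩ A) fun x hx => ⟨Or.inl hx, (hBA hx).1⟩
  · have h3 : l ≤ #((B ∪ Yᶜ) ∩ A : Set Ω) := by
      rw [← hBl]
      exact mk_mono (B := (B ∪ Yᶜ) ∩ A) fun x hx => ⟨Or.inl hx, (hBA hx).1⟩
    refine mk_le_of_union (h.inf.trans h3) (B := (B ∪ Yᶜ) ∩ A) (C := A ∩ Y) ?_ le_rfl (h2.trans_le h3)
    intro x hx
    by_cases hxY : x ∈ Y
    · exact Or.inr ⟨hx, hxY⟩
    · exact Or.inl ⟨Or.inr hxY, hx⟩

/-- The sets `A` with `Sym(A) ≤ H` form an ideal, for `H` above the stabilizer of a closed filter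
without almost intersections. -/
lemma Sy_union_le_of_tall (h : Cl F l) (ht : Tall F l) {H : Subgroup (Equiv.Perm Ω)}
    (hH : stab F ≤ H) {A B : Set Ω} (hA : Sy A ≤ H) (hB : Sy B ≤ H) : Sy (A ∪ B) ≤ H := by
  have step : ∀ A N : Set Ω, Sy A ≤ H → Null F N → Sy (A ∪ N) ≤ H := by
    intro A N hA hN
    by_cases hAn : Null F A
    · exact (Sy_le_stab (hAn.union hN)).trans hH
    · obtain ⟨M, hM, hM1, hM2⟩ := exists_null_large h ht hAn
      have h1 : ((M ∪ N) ∩ A) ⊇ M ∩ A := fun x hx => ⟨Or.inl hx.1, hx.2⟩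
      have h2 := Sy_union_le (A := M ∪ N) (B := A) ((Sy_le_stab (hM.union hN)).trans hH) hA
        (hM1.trans (mk_mono h1)) ((mk_mono sdiff_subset).trans (hM2.trans (mk_mono h1)))
      refine (Sy_mono ?_).trans h2
      rintro x (hx | hx)
      · exact Or.inr hx
      · exact Or.inl (Or.inr hx)
  by_cases hBn : Null F B
  · exact step A B hA hBn
  · obtain ⟨M, hM, hM1, hM2⟩ := exists_null_large h ht hBn
    have h1 : ((A ∪ M) ∩ B) ⊇ M ∩ B := fun x hx => ⟨Or.inr hx.1, hx.2⟩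
    have h2 := Sy_union_le (A := A ∪ M) (B := B) (step A M hA hM) hB
      (hM1.trans (mk_mono h1)) ((mk_mono sdiff_subset).trans (hM2.trans (mk_mono h1)))
    refine (Sy_mono ?_).trans h2
    rintro x (hx | hx)
    · exact Or.inl (Or.inl hx)
    · exact Or.inr hx

lemma Sy_biUnion_le_of_tall (h : Cl F l) (ht : Tall F l) {H : Subgroup (Equiv.Perm Ω)}
    (hH : stab F ≤ H) {ι : Type*} {T : Set ι} (hT : T.Finite) {f : ι → Set Ω}
    (hf : ∀ i ∈ T, Sy (f i) ≤ H) : Sy (⋃ i ∈ T, f i) ≤ H := by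
  induction T, hT using Set.Finite.induction_on with
  | empty => simp [Sy_empty]
  | @insert a s _ _ ih =>
    rw [biUnion_insert]
    exact Sy_union_le_of_tall h ht hH (hf a (mem_insert _ _))
      (ih fun i hi => hf i (mem_insert_of_mem _ hi))

/-- A non-null set of cardinality `l` splits off a null set of cardinality `l` with complement of
cardinality `l`, and some permutation supported in it moves it outside the null sets. -/
lemma exists_swap_of_not_null (h : Cl F l) (ht : Tall F l) {A : Set Ω} (hA : ¬ Null F A) :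
    ∃ g ∈ Sy A, ∃ B ⊆ A, Null F B ∧ ¬ Null F (g '' B) := by
  obtain ⟨Y, hY, hYl⟩ := h.mem
  have h1 := not_null_inter hY hA
  have h2 : #(A ∩ Y : Set Ω) = l :=
    le_antisymm (hYl ▸ mk_mono inter_subset_right) (h.le_of_not_null h1)
  obtain ⟨B, hBA, hB, hBl⟩ := ht _ h2
  have h3 : ¬ Null F ((A ∩ Y) \ B) := by
    intro h4
    apply h1
    refine (h4.union hB).mono fun x hx => ?_
    by_cases hxB : x ∈ B
    · exact Or.inr hxB
    · exact Or.inl ⟨hx, hxB⟩
  have h4 : #((A ∩ Y) \ B : Set Ω) = l :=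
    le_antisymm (h2 ▸ mk_mono sdiff_subset) (h.le_of_not_null h3)
  obtain ⟨g, hg, hg1, -⟩ := exists_swap (A := B) (B := (A ∩ Y) \ B) disjoint_sdiff_right
    (hBl.trans h4.symm)
  refine ⟨g, Sy_mono ?_ hg, B, fun x hx => (hBA hx).1, hB, hg1 ▸ h3⟩
  rintro x (hx | hx)
  · exact (hBA hx).1
  · exact hx.1.1

lemma stab_ne_top_of_tall [F.NeBot] (h : Cl F l) (ht : Tall F l) : stab F ≠ ⊤ := by
  intro htop
  obtain ⟨g, -, B, -, hB, hgB⟩ := exists_swap_of_not_null h ht (A := Set.univ) not_null_univ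
  exact hgB (hB.image (htop ▸ Subgroup.mem_top g))

/-- `F`-positive sets have finitely many translates under the stabilizer of `F` that cover a member
of `F`. -/
def HomStab (F : Filter Ω) : Prop :=
  ∀ A : Set Ω, ¬ Null F A → ∃ T : Set (Equiv.Perm Ω), T.Finite ∧ (∀ g ∈ T, g ∈ stab F) ∧
    (⋃ g ∈ T, (g : Ω → Ω) '' A) ∈ F

/-- Sufficiency. -/
theorem isCoatom_of_homStab [F.NeBot] (h : Cl F l) (ht : Tall F l) (hh : HomStab F) :
    IsCoatom (stab F) := by
  refine ⟨stab_ne_top_of_tall h ht, fun H hH => ?_⟩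
  obtain ⟨h1, h2⟩ := SetLike.lt_iff_le_and_exists.mp hH
  obtain ⟨g, hgH, hgs⟩ := h2
  obtain ⟨k, hk, A, hA, hkA⟩ := exists_of_notMem_stab hgs hgH
  obtain ⟨T, hT, hTs, hTF⟩ := hh _ hkA
  have e1 : Sy (k '' A) ≤ H := Sy_image_le hk ((Sy_le_stab hA).trans h1)
  have e2 : Sy (⋃ g ∈ T, (g : Ω → Ω) '' (k '' A)) ≤ H :=
    Sy_biUnion_le_of_tall h ht h1 hT fun i hi => Sy_image_le (h1 (hTs i hi)) e1
  have e3 : Sy ((⋃ g ∈ T, (g : Ω → Ω) '' (k '' A)) ∪ (⋃ g ∈ T, (g : Ω → Ω) '' (k '' A))ᶜ) ≤ H :=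
    Sy_union_le_of_tall h ht h1 e2 ((Sy_le_stab (null_compl hTF)).trans h1)
  rw [union_compl_self, Sy_univ] at e3
  exact eq_top_iff.mpr e3

/-- The filter dual to the ideal generated by the null sets and the translates of `A`. -/
def transFilter (F : Filter Ω) (A : Set Ω) : Filter Ω :=
  Filter.comk (fun C => ∃ T : Set (Equiv.Perm Ω), T.Finite ∧ (∀ g ∈ T, g ∈ stab F) ∧
      Null F (C \ ⋃ g ∈ T, (g : Ω → Ω) '' A))
    ⟨∅, finite_empty, by simp, by simpa using null_empty⟩
    (by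
      rintro C ⟨T, hT, h1, h2⟩ D hD
      exact ⟨T, hT, h1, h2.mono (sdiff_subset_sdiff_left hD)⟩)
    (by
      rintro C ⟨T, hT, h1, h2⟩ D ⟨T', hT', h1', h2'⟩
      refine ⟨T ∪ T', hT.union hT', fun g hg => hg.elim (h1 g) (h1' g), ?_⟩
      refine (h2.union h2').mono fun x hx => ?_
      rw [biUnion_union] at hx
      rcases hx.1 with h | h
      · exact Or.inl ⟨h, fun h' => hx.2 (Or.inl h')⟩
      · exact Or.inr ⟨h, fun h' => hx.2 (Or.inr h')⟩)

lemma null_transFilter {F : Filter Ω} {A C : Set Ω} : Null (transFilter F A) C ↔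
    ∃ T : Set (Equiv.Perm Ω), T.Finite ∧ (∀ g ∈ T, g ∈ stab F) ∧
      Null F (C \ ⋃ g ∈ T, (g : Ω → Ω) '' A) := by
  unfold Null transFilter
  rw [Filter.mem_comk, compl_compl]
  rfl

lemma stab_le_transFilter (F : Filter Ω) (A : Set Ω) : stab F ≤ stab (transFilter F A) := by
  have key : ∀ g ∈ stab F, ∀ C, Null (transFilter F A) C → Null (transFilter F A) (g '' C) := by
    intro g hg C hC
    rw [null_transFilter] at hC ⊢
    obtain ⟨T, hT, h1, h2⟩ := hC
    refine ⟨(fun k => g * k) '' T, hT.image _, ?_, ?_⟩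
    · rintro _ ⟨k, hk, rfl⟩; exact Subgroup.mul_mem _ hg (h1 k hk)
    · refine (h2.image hg).mono ?_
      rintro _ ⟨⟨x, hx, rfl⟩, hx'⟩
      refine ⟨x, ⟨hx, fun hx'' => hx' ?_⟩, rfl⟩
      obtain ⟨k, hk, y, hy, rfl⟩ := mem_iUnion₂.mp hx''
      exact mem_iUnion₂.mpr ⟨g * k, ⟨k, hk, rfl⟩, y, hy, rfl⟩
  intro g hg
  exact mem_stab_of (key g hg) (key g⁻¹ (Subgroup.inv_mem _ hg))

/-- Necessity of homogeneity. -/
theorem homStab_of_isCoatom [F.NeBot] (h : Cl F l) (ht : Tall F l) (hc : IsCoatom (stab F)) :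
    HomStab F := by
  intro A hA
  by_contra hcon
  push Not at hcon
  set K := transFilter F A with hK
  have hKF : ∀ C, Null F C → Null K C := fun C hC =>
    null_transFilter.mpr ⟨∅, finite_empty, by simp, by simpa using hC⟩
  have hKA : Null K A := null_transFilter.mpr ⟨{1}, finite_singleton _, by
    intro g hg; rw [mem_singleton_iff.mp hg]; exact Subgroup.one_mem _, by
    simpa using null_empty⟩
  have hKtop : ¬ Null K Set.univ := by
    rw [null_transFilter]
    rintro ⟨T, hT, h1, h2⟩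
    apply hcon T hT h1
    unfold Null at h2
    rwa [← compl_eq_univ_sdiff, compl_compl] at h2
  have hle := stab_le_transFilter F A
  rw [← hK] at hle
  rcases hle.eq_or_lt with heq | hlt
  · -- `Sym(A)` stabilizes `F`
    obtain ⟨g, hg, B, -, hB, hgB⟩ := exists_swap_of_not_null h ht hA
    apply hgB
    apply hB.image
    rw [heq]
    exact Sy_le_stab hKA hg
  · have htop := hc.2 _ hlt
    -- `K` is proper, contradiction
    obtain ⟨Y, hY, hYl⟩ := h.mem
    have hYn : ¬ Null F Y := fun h' => by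
      have := h'.union (null_compl hY)
      rw [union_compl_self] at this
      exact not_null_univ this
    obtain ⟨B, hBY, hB, hBl⟩ := ht Y hYl
    have h3 : ¬ Null F (Y \ B) := fun h4 => hYn ((h4.union hB).mono fun x hx => by
      by_cases hxB : x ∈ B
      · exact Or.inr hxB
      · exact Or.inl ⟨hx, hxB⟩)
    have h4 : #(Y \ B : Set Ω) = l :=
      le_antisymm (hYl ▸ mk_mono sdiff_subset) (h.le_of_not_null h3)
    obtain ⟨g, -, hg1, -⟩ := exists_swap (A := B) (B := Y \ B) disjoint_sdiff_right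
      (hBl.trans h4.symm)
    have h5 : Null K (Y \ B) := hg1 ▸ (hKF B hB).image (htop ▸ Subgroup.mem_top g)
    apply hKtop
    refine ((h5.union (hKF B hB)).union (hKF _ (null_compl hY))).mono fun x _ => ?_
    by_cases hxY : x ∈ Y
    · by_cases hxB : x ∈ B
      · exact Or.inl (Or.inr hxB)
      · exact Or.inl (Or.inl ⟨hxY, hxB⟩)
    · exact Or.inr hxY

end

end Pool.Agent.R629.Filt
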